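import Mathlib
import Pool.Agent.Run7.h285.G.Stm

/-!
# Project GENP (helper285): systems of polynomials at prime arguments in short windows

`f_1, …, f_k` fixed polynomials of degrees `≥ 2` with positive leading coefficients (definitions of `Run7/h285/G/Stm.lean`). For almost all
`(a, m)`, `a ∈ Bx k X`, `Y < m ≤ 2 Y`, ALL windows `(m, m + H]`, `Y^(1/3) log^B X ≤ H ≤ Y`, contain the expected number of primes `p` for which all
`|f_l(p) + a_l|` are primes. One hand-in (MP_ad8ced_nt slot 2: primes `p` with `8 p² - 1` prime). `L = log X`, `z = ⌊L^E⌋`.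
-/

set_option autoImplicit false

namespace Run7.h285.A

open Finset Filter Topology Polynomial
open Pool.Agent.TH892.SW (ff wt)
open Pool.Agent.H373R2.T7 (lamz Vz)
open Run7.h285.S (Bx uu vv ll gg)
open Run7.h285.G (Gd cor pr MM)

/-- the number of the reduced residues modulo `p` at which one of the polynomials vanishes -/
noncomputable def nup {k : ℕ} (f : Fin k → ℤ[X]) (a : Fin k → ℤ) (p : ℕ) : ℕ := by
  classical exact #((Ioo 0 p).filter (fun x : ℕ => ∃ l, (p : ℤ) ∣ (f l).eval (x : ℤ) + a l))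

/-- the constant of Bateman and Horn for `x, f_1(x) + a_1, …, f_k(x) + a_k`, cut at `N` -/
noncomputable def SP {k : ℕ} (f : Fin k → ℤ[X]) (a : Fin k → ℤ) (N : ℕ) : ℝ :=
  ∏ p ∈ (range (N + 1)).filter Nat.Prime, (1 - (nup f a p : ℝ) / ((p : ℝ) - 1)) / (1 - 1 / (p : ℝ)) ^ k

/-- no fixed prime divisor of `x ∏ (f_l(x) + a_l)` -/
def AdmP {k : ℕ} (f : Fin k → ℤ[X]) (a : Fin k → ℤ) : Prop := ∀ p : ℕ, p.Prime → nup f a p < p - 1

/-- the number of the primes `n` in the window for which all `|f_l(n) + a l|` are primes -/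
def PA {k : ℕ} (f : Fin k → ℤ[X]) (a : Fin k → ℤ) (m H : ℕ) : ℕ :=
  #((Ioc m (m + H)).filter (fun n : ℕ => n.Prime ∧ ∀ l, ((f l).eval (n : ℤ) + a l).natAbs.Prime))

/-- the sum of `1 / log n · ∏ 1 / log |f_l(n) + a l|` over the window -/
noncomputable def WA {k : ℕ} (f : Fin k → ℤ[X]) (a : Fin k → ℤ) (m H : ℕ) : ℝ :=
  ∑ n ∈ Ioc m (m + H), wt n * ∏ l, wt ((f l).eval (n : ℤ) + a l).natAbs

/-- **PAW** (primes in progressions in almost all windows; from `Pool.Agent.Q236.CR.S_SIA`, which is a theorem: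
`Pool.Agent.Run7.h794.MK.sia_all`). Proof. (1) For `q ≤ log^A Y` and a residue `c` the sum of `Λ(n)`, `n ≡ c (mod q)`, over a window `(m, m + H']` is
`(1/q) ∑_{a < q} e(-a c / q) ∑ Λ(n) e(a n / q)`, and `(1/q) ∑_a e(-a c/q) cc q a = 1_{(c,q)=1} / φ(q)` (orthogonality, definition of `cc`), so SIA
(with a large `U'`) gives mean square `≤ Y H'² / log^(U') Y` of the difference to `H' 1_{(c,q)=1} / φ(q)`, for every `H'` in `[Y^(1/3) log^(B') Y, Y]`.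
(2) Chebyshev and the union over `q`, `c` and the scales `H' = H_j = ⌈(1 + log^(-A') Y)^j Y^(1/3) log^(B') Y⌉ ≤ Y` (at most `log^(A'+2) Y` of
them): outside a set of `Y / log^U Y` of the `m` the difference is `≤ H_j / log^(A') Y` for all `q, c, j`. (3) All `H'` by monotonicity in `H'`
(`Λ ≥ 0`) between two scales. (4) From `Λ` to the indicator function of the primes: the prime powers contribute at most `2 (H' / √Y + 1) log Y` per
exponent, and `1_prime = Λ · wt` on primes: partial summation over the window with (3) for all `H' ≤ H` (windows shorter than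
`Y^(1/3) log^(B') Y` trivially; `B > B' + A + 2`); `wt` is decreasing. -/
def S_PAW : Prop := ∀ A U : ℕ, ∃ B Y₀ : ℕ, ∀ Y : ℕ, Y₀ ≤ Y → ∃ Bad ⊆ Ioc Y (2 * Y), (#Bad : ℝ) ≤ Y / Real.log Y ^ U ∧
  ∀ m ∈ Ioc Y (2 * Y), m ∉ Bad → ∀ H : ℕ, (Y : ℝ) ^ (1 / 3 : ℝ) * Real.log Y ^ B ≤ H → H ≤ Y → ∀ q c : ℕ, 1 ≤ q →
  (q : ℝ) ≤ Real.log Y ^ A →
  |(#((Ioc m (m + H)).filter (fun n : ℕ => n.Prime ∧ n % q = c % q)) : ℝ) -
    (if c.Coprime q then (∑ n ∈ Ioc m (m + H), wt n) / Nat.totient q else 0)| ≤ H / Real.log Y ^ A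

/-- **FLP** (fundamental lemma for a set `S` equidistributed in the reduced residue classes; for `Gd (f l)`). From the abstract fundamental lemma
`Pool.Agent.H20R2.EN.fLem : FLem` (`H410R2/ENIface.lean`), as `SW.fl_set` is derived from it (`TH892/SW/S2.lean`): `Ω = S` (restricted to the residue
classes modulo `K0 = ∏_{p ≤ z0} p` allowed by the small primes), `hit p n` = some `p ∣ f_l(n) + a_l`, `g p = nup f a p / (p - 1)`, `A = V · (density of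
the allowed classes)`; for a set `T` of primes the `n` with all hits lie in `∏ nup f a p` reduced (and some non-reduced) classes modulo `∏ T`, each class with error `≤ R`, so
`err T ≤ (∏ T) K0 R`. `nup f a p ≤ κ` for `p` large (leading coefficients). Finally `pr f ll = (Vz z)^(-k) ·` indicator function. The number of
classes and `(Vz z)^(-k)` are absorbed by `z^(3 C1 b)` (`C1` large in terms of `f`). -/
def S_FLP {k : ℕ} (f : Fin k → ℤ[X]) : Prop := ∃ C1 y0 : ℕ, 1 ≤ C1 ∧ 2 ≤ y0 ∧ ∀ b : ℕ, C1 ≤ b → ∀ z : ℕ, y0 ≤ z →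
  ∀ (S : Finset ℕ) (V R : ℝ), 0 ≤ V → 0 ≤ R →
  (∀ q c : ℕ, 1 ≤ q → q ≤ z ^ (C1 * b) →
    |(#(S.filter (fun n : ℕ => n % q = c % q)) : ℝ) - (if c.Coprime q then V / Nat.totient q else 0)| ≤ R) →
  ∀ a : Fin k → ℤ, AdmP f a →
  |∑ n ∈ S, pr f (fun _ => ll z) a n - V * SP f a z| ≤ 2 * (1 / 2 : ℝ) ^ b * SP f a z * V + (z : ℝ) ^ (3 * (C1 * b)) * R

/-- **HGP** (the constants; elementary, the same proof as `G.S_GHG` with `nup f a p / (p - 1)` in the place of `nu f a p / p`; the mean of `nup f a p`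
over `a mod p` is `(p - 1) (1 - (1 - 1/p)^k)`). -/
def S_HGP {k : ℕ} (f : Fin k → ℤ[X]) : Prop := ∀ η : ℝ, 0 < η → ∃ δ0 : ℝ, 0 < δ0 ∧ ∀ ε1 : ℝ, 0 < ε1 → ∀ C E : ℕ, 1 ≤ E →
  ∃ X₀ : ℕ, ∀ X : ℕ, X₀ ≤ X → ∀ y : ℕ, Real.log X ≤ y → (y : ℝ) ≤ Real.log X ^ C →
  ∃ Bad ⊆ Bx k X, (#Bad : ℝ) ≤ η * (X : ℝ) ^ k ∧ ∀ a ∈ Bx k X, a ∉ Bad → AdmP f a →
    δ0 ≤ SP f a y ∧ |SP f a ⌊Real.log X ^ E⌋₊ - SP f a y| ≤ ε1 * SP f a y

/-- **GSP** (from `G.S_GSM1`; long windows): log-power saving. Written by helper285. -/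
def S_GSP {k : ℕ} (f : Fin k → ℤ[X]) : Prop := ∀ U C : ℕ, ∃ E1 : ℕ, ∀ E : ℕ, E1 ≤ E → ∃ B X₀ : ℕ,
  ∀ X : ℕ, X₀ ≤ X → ∀ m₀ M H : ℕ, Real.log X ^ B ≤ H →
  (∀ l, (X : ℝ) ^ (1 / 3 : ℝ) * Real.log X ^ B ≤ (M : ℝ) ^ ((f l).natDegree - 1)) →
  (∀ l, ((m₀ : ℝ) + H + M) ^ (f l).natDegree ≤ X * Real.log X ^ C) → ∀ ω : ℕ → ℝ, (∀ n, |ω n| ≤ 1) →
  MM k ω (fun a n => pr f (fun _ => uu) a n - pr f (fun _ => vv ⌊Real.log X ^ E⌋₊) a n) X m₀ M H ≤
    (X : ℝ) ^ k * (M * (H : ℝ) ^ 2 / Real.log X ^ U)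

/-- **GPA** (the hand-in; from GSP, PAW, FLP, HGP). Written by helper285. -/
def S_GPA {k : ℕ} (f : Fin k → ℤ[X]) : Prop := ∀ (ε : ℝ) (C : ℕ), 0 < ε → ∃ B X₀ : ℕ, ∀ X : ℕ, X₀ ≤ X → ∀ Y : ℕ,
  (∀ l, (X : ℝ) ^ (1 / 3 : ℝ) * Real.log X ^ B ≤ (Y : ℝ) ^ ((f l).natDegree - 1)) →
  (∀ l, (Y : ℝ) ^ (f l).natDegree ≤ X * Real.log X ^ C) → ∀ y : ℕ, Real.log X ≤ y → (y : ℝ) ≤ Real.log X ^ C →
  ∃ Bad ⊆ Bx k X ×ˢ Ioc Y (2 * Y), (#Bad : ℝ) ≤ ε * ((X : ℝ) ^ k * Y) ∧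
    ∀ a ∈ Bx k X, ∀ m ∈ Ioc Y (2 * Y), (a, m) ∉ Bad → AdmP f a → 0 < SP f a y ∧
      ∀ H : ℕ, (Y : ℝ) ^ (1 / 3 : ℝ) * Real.log X ^ B ≤ H → H ≤ Y →
        |(PA f a m H : ℝ) - SP f a y * WA f a m H| ≤ ε * (SP f a y * WA f a m H)

end Run7.h285.A
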