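import Pool.Agent.Run7.h285.A.GPC
import Pool.Agent.Run7.h212.A.PAW
import Pool.Agent.Run7.h212.A.FLP
import Pool.Agent.Run7.h803.A.HGP
import Pool.Agent.Run7.h973.G.SM1
import Pool.Agent.Run7.h376.G.Main
import Pool.Agent.Run7.h794.MK.All
import Pool.Agent.Run7.h794.MK.SiaAll

/-!
# Project GENP: the theorems without hypotheses
-/

set_option autoImplicit false

namespace Run7.h285.A

open Polynomial
open Run7.h285.G (Gd)

theorem gpb_all {k : ℕ} (f : Fin k → ℤ[X]) (hk : 1 ≤ k) (hf : ∀ l, Gd (f l)) : S_GPB f :=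
  gpb f hk hf (gsp f (Run7.h973.G.gsm1 f hf fun l => Run7.h376.G.gcg Pool.Agent.Run7.h794.MK.law_all (hf l)))
    (Run7.h212.A.paw Pool.Agent.Run7.h794.MK.sia_all) (Run7.h212.A.flp f hf)

theorem gpc_all {k : ℕ} (f : Fin k → ℤ[X]) (hk : 1 ≤ k) (hf : ∀ l, Gd (f l)) : S_GPC f :=
  gpc f (gpb_all f hk hf) (Run7.h803.A.hgp f hf)

end Run7.h285.A
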