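import Pool.Agent.Run7.h285.A.Stm
import Pool.Agent.Run7.h285.G.GEN
import Pool.Agent.Run7.h109.G.HG2

/-!
# Project GENP: a lower bound for the constants
-/

set_option autoImplicit false

namespace Run7.h285.A

open Finset Filter Topology Polynomial
open Pool.Agent.H373R2.T7 (pz Vz lamz mem_pz)
open Pool.Agent.TH892.OW (evt_ll Vz_log Vz_pos)
open Run7.h285.G (Gd nu)
open Run7.h109.G (kap p0 nu_le)
open Pool.Agent.H442R2.EHI (evt_log_pow evt_log_ge)

lemma nup_le_nu {k : ℕ} (f : Fin k → ℤ[X]) (a : Fin k → ℤ) (p : ℕ) : nup f a p ≤ nu f a p := by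
  classical
  unfold nup nu
  apply card_le_card
  intro x hx
  rw [mem_filter, mem_Ioo] at hx
  rw [mem_filter, mem_range]
  exact ⟨hx.1.2, hx.2⟩

/-- one factor -/
lemma factor_low (κ p n : ℕ) (hn : n < p - 1) (hp : 2 ≤ p) (hκ : n ≤ κ ∧ 2 * κ + 2 ≤ p ∨ p ≤ 2 * κ + 2) (k : ℕ) :
    (if p ≤ 2 * κ + 2 then 1 / ((2 * κ + 2 : ℕ) : ℝ) else 1) * (1 - 1 / (p : ℝ)) ^ (2 * κ) ≤
      (1 - (n : ℝ) / ((p : ℝ) - 1)) / (1 - 1 / (p : ℝ)) ^ k := by
  have hp2 : (2 : ℝ) ≤ p := by exact_mod_cast hp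
  have hp1 : (0 : ℝ) < (p : ℝ) - 1 := by linarith
  have hp0 : (0 : ℝ) < p := by linarith
  have h1 : (n : ℝ) + 1 ≤ (p : ℝ) - 1 := by
    have : n + 2 ≤ p := by omega
    have : ((n + 2 : ℕ) : ℝ) ≤ p := by exact_mod_cast this
    push_cast at this
    linarith
  have hq0 : 0 ≤ 1 - 1 / (p : ℝ) := by
    rw [sub_nonneg, div_le_one hp0]; linarith
  have hq00 : 0 < 1 - 1 / (p : ℝ) := by
    rw [sub_pos, div_lt_one hp0]; linarith
  have hq1 : 1 - 1 / (p : ℝ) ≤ 1 := by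
    have : 0 ≤ 1 / (p : ℝ) := by positivity
    linarith
  have hnum : 1 / ((p : ℝ) - 1) ≤ 1 - (n : ℝ) / ((p : ℝ) - 1) := by
    rw [le_sub_iff_add_le, ← add_div, div_le_one hp1]
    linarith
  have hnum0 : 0 ≤ 1 - (n : ℝ) / ((p : ℝ) - 1) := le_trans (by positivity) hnum
  have h2 : 1 - (n : ℝ) / ((p : ℝ) - 1) ≤ (1 - (n : ℝ) / ((p : ℝ) - 1)) / (1 - 1 / (p : ℝ)) ^ k := by
    rw [le_div_iff₀ (by positivity)]
    exact mul_le_of_le_one_right hnum0 (pow_le_one₀ hq0 hq1)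
  refine le_trans ?_ h2
  have h3 : (1 - 1 / (p : ℝ)) ^ (2 * κ) ≤ 1 := pow_le_one₀ hq0 hq1
  have h30 : 0 ≤ (1 - 1 / (p : ℝ)) ^ (2 * κ) := pow_nonneg hq0 _
  split_ifs with h
  · have h4 : 1 / ((2 * κ + 2 : ℕ) : ℝ) ≤ 1 / ((p : ℝ) - 1) := by
      apply one_div_le_one_div_of_le hp1
      have : ((p : ℕ) : ℝ) ≤ ((2 * κ + 2 : ℕ) : ℝ) := by exact_mod_cast h
      linarith
    have h5 : 0 ≤ 1 / ((2 * κ + 2 : ℕ) : ℝ) := by positivity
    nlinarith
  · have hn' : n ≤ κ := by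
      rcases hκ with h4 | h4
      · exact h4.1
      · omega
    rw [one_mul]
    have hκp : ((2 * κ + 3 : ℕ) : ℝ) ≤ p := by
      have : 2 * κ + 3 ≤ p := by omega
      exact_mod_cast this
    push_cast at hκp
    have hn'' : (n : ℝ) ≤ κ := by exact_mod_cast hn'
    -- (1 - 1/p)^(2κ) ≤ 1 / (1 + 2κ/p)
    have h4 : (1 - 1 / (p : ℝ)) ^ (2 * κ) * (1 + 2 * κ / p) ≤ 1 := by
      have h5 := one_add_mul_le_pow (a := 1 / (p : ℝ)) (by have : 0 ≤ 1 / (p : ℝ) := by positivity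
                                                           linarith) (2 * κ)
      have h6 : 1 + 2 * (κ : ℝ) / p ≤ (1 + 1 / (p : ℝ)) ^ (2 * κ) := by
        refine le_trans (le_of_eq ?_) h5
        push_cast
        ring
      calc (1 - 1 / (p : ℝ)) ^ (2 * κ) * (1 + 2 * κ / p) ≤ (1 - 1 / (p : ℝ)) ^ (2 * κ) * (1 + 1 / (p : ℝ)) ^ (2 * κ) :=
            mul_le_mul_of_nonneg_left h6 h30
        _ = (1 - (1 / (p : ℝ)) ^ 2) ^ (2 * κ) := by rw [← mul_pow]; ring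
        _ ≤ 1 := by
            apply pow_le_one₀
            · have : (1 / (p : ℝ)) ^ 2 ≤ 1 := by
                apply pow_le_one₀ (by positivity)
                rw [div_le_one hp0]; linarith
              linarith
            · have : 0 ≤ (1 / (p : ℝ)) ^ 2 := by positivity
              linarith
    have h5 : 1 ≤ (1 - (n : ℝ) / ((p : ℝ) - 1)) * (1 + 2 * κ / p) := by
      have h6 : (1 - (n : ℝ) / ((p : ℝ) - 1)) * (1 + 2 * κ / p) - 1 =
          (2 * κ * (p - 1) - n * p - 2 * κ * n) / ((p - 1) * p) := by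
        field_simp
        ring
      have h7 : 0 ≤ 2 * (κ : ℝ) * (p - 1) - n * p - 2 * κ * n := by nlinarith
      have h8 : 0 ≤ (2 * (κ : ℝ) * (p - 1) - n * p - 2 * κ * n) / (((p : ℝ) - 1) * p) := by positivity
      linarith
    have h6 : 0 < 1 + 2 * (κ : ℝ) / p := by positivity
    by_contra hcon
    push Not at hcon
    nlinarith

/-- the lower bound -/
theorem sp_low {k : ℕ} (f : Fin k → ℤ[X]) (hf : ∀ l, Gd (f l)) : ∃ c : ℝ, 0 < c ∧ ∃ κ : ℕ, ∀ (a : Fin k → ℤ) (z : ℕ), AdmP f a →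
    c * Vz z ^ (2 * κ) ≤ SP f a z := by
  obtain ⟨κ, hκ⟩ : ∃ κ, κ = kap f + p0 f := ⟨_, rfl⟩
  refine ⟨(1 / ((2 * κ + 2 : ℕ) : ℝ)) ^ (2 * κ + 3), by positivity, κ, fun a z hadm => ?_⟩
  have e1 : Vz z = ∏ p ∈ (range (z + 1)).filter Nat.Prime, (1 - 1 / (p : ℝ)) := by
    unfold Vz
    apply prod_congr _ fun _ _ => rfl
    ext p
    rw [mem_pz, mem_filter, mem_range]
    constructor
    · rintro ⟨h1, h2⟩; exact ⟨by omega, h2⟩
    · rintro ⟨h1, h2⟩; exact ⟨by omega, h2⟩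
  have h1 : ∏ p ∈ (range (z + 1)).filter Nat.Prime, ((if p ≤ 2 * κ + 2 then 1 / ((2 * κ + 2 : ℕ) : ℝ) else 1) *
      (1 - 1 / (p : ℝ)) ^ (2 * κ)) ≤ SP f a z := by
    unfold SP
    apply Finset.prod_le_prod
    · intro p hp
      rw [mem_filter] at hp
      have hp2 : (2 : ℝ) ≤ p := by exact_mod_cast hp.2.two_le
      have hq0 : 0 ≤ 1 - 1 / (p : ℝ) := by
        rw [sub_nonneg, div_le_one (by linarith)]; linarith
      apply mul_nonneg
      · split_ifs <;> positivity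
      · exact pow_nonneg hq0 _
    · intro p hp
      rw [mem_filter] at hp
      apply factor_low κ p (nup f a p) (hadm p hp.2) hp.2.two_le
      rcases le_or_gt p (2 * κ + 2) with h | h
      · exact Or.inr h
      · left
        refine ⟨?_, by omega⟩
        refine (nup_le_nu f a p).trans ((nu_le f hf a p hp.2 (by omega)).trans (by omega))
  refine le_trans ?_ h1
  rw [prod_mul_distrib, prod_pow, ← e1]
  apply mul_le_mul_of_nonneg_right _ (pow_nonneg (Vz_pos z).le _)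
  rw [prod_ite, prod_const_one, mul_one, prod_const]
  apply pow_le_pow_of_le_one (by positivity)
  · rw [div_le_one (by positivity)]
    exact_mod_cast (by omega : 1 ≤ 2 * κ + 2)
  · calc #((filter Nat.Prime (range (z + 1))).filter (fun p => p ≤ 2 * κ + 2)) ≤ #(range (2 * κ + 3)) := by
          apply card_le_card
          intro p hp
          rw [mem_filter] at hp
          rw [mem_range]
          omega
      _ = 2 * κ + 3 := card_range _

/-- the lower bound at the cut -/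
theorem sp_log {k : ℕ} (f : Fin k → ℤ[X]) (hf : ∀ l, Gd (f l)) (E : ℕ) (hE : 1 ≤ E) : ∃ X₀ : ℕ, ∀ X : ℕ, X₀ ≤ X →
    ∀ a : Fin k → ℤ, AdmP f a → 1 / Real.log X ≤ SP f a ⌊Real.log X ^ E⌋₊ := by
  obtain ⟨c, hc, κ, h1⟩ := sp_low f hf
  obtain ⟨CV, hCV, hV⟩ := Vz_log
  have hev : ∀ᶠ X : ℕ in atTop, (10000 : ℝ) ≤ Real.log X ∧
      ((CV * E ^ 2) ^ (2 * κ) / c) * Real.log (Real.log X) ^ (4 * κ) ≤ Real.log X ^ (1 : ℝ) := by
    filter_upwards [evt_log_ge _, evt_ll (4 * κ) 1 ((CV * E ^ 2) ^ (2 * κ) / c) (by norm_num)] with X a1 a2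
    exact ⟨a1, a2⟩
  obtain ⟨X₀, hX₀⟩ := eventually_atTop.1 hev
  refine ⟨X₀, fun X hX a hadm => ?_⟩
  obtain ⟨hl, h2⟩ := hX₀ X hX
  rw [Real.rpow_one] at h2
  generalize Real.log (X : ℝ) = l at *
  have hl0 : 0 < l := by linarith
  have hl1 : 1 ≤ l := by linarith
  obtain ⟨z, hz⟩ : ∃ z, z = ⌊l ^ E⌋₊ := ⟨_, rfl⟩
  rw [← hz]
  have hle : l ≤ l ^ E := le_self_pow₀ hl1 (by omega)
  have hz3 : 3 ≤ z := by
    rw [hz]
    apply Nat.le_floor
    push_cast
    linarith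
  have hz0 : (0 : ℝ) < z := by
    have : 0 < z := by omega
    exact_mod_cast this
  have hzl : (z : ℝ) ≤ l ^ E := by rw [hz]; exact Nat.floor_le (by positivity)
  have h3 : Real.log z ≤ E * Real.log l := by
    rw [← Real.log_pow]
    exact Real.log_le_log hz0 hzl
  have h30 : 0 ≤ Real.log z := Real.log_nonneg (by
    have : (1 : ℝ) ≤ (z : ℝ) := by exact_mod_cast (by omega : 1 ≤ z)
    exact this)
  have h4 := hV z hz3
  have hVp := Vz_pos z
  have h5 : (Vz z)⁻¹ ≤ CV * E ^ 2 * Real.log l ^ 2 := by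
    refine h4.trans ?_
    have : Real.log z ^ 2 ≤ (E * Real.log l) ^ 2 := pow_le_pow_left₀ h30 h3 2
    calc CV * Real.log z ^ 2 ≤ CV * (E * Real.log l) ^ 2 := mul_le_mul_of_nonneg_left this (by linarith)
      _ = _ := by ring
  have h6 : ((Vz z)⁻¹) ^ (2 * κ) ≤ c * l := by
    calc ((Vz z)⁻¹) ^ (2 * κ) ≤ (CV * E ^ 2 * Real.log l ^ 2) ^ (2 * κ) := pow_le_pow_left₀ (inv_nonneg.2 hVp.le) h5 _
      _ = c * ((CV * E ^ 2) ^ (2 * κ) / c * Real.log l ^ (4 * κ)) := by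
          rw [mul_pow, ← pow_mul]
          have : 2 * (2 * κ) = 4 * κ := by ring
          rw [this]
          field_simp
      _ ≤ c * l := mul_le_mul_of_nonneg_left h2 hc.le
  refine le_trans ?_ (h1 a z hadm)
  rw [div_le_iff₀ hl0]
  rw [inv_pow, inv_le_iff_one_le_mul₀ (by positivity)] at h6
  linarith

end Run7.h285.A
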