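import Pool.Agent.Run7.h285.A.GSP
import Pool.Agent.Run7.h285.A.Low

/-!
# Project GENP: arithmetic, one scale
-/

set_option autoImplicit false

namespace Run7.h285.A

open Finset Filter Topology Polynomial
open Pool.Agent.TH892.SW (ff wt wt_nonneg wt_le)
open Run7.h285.E3 (wt_le')

/-- **GPB**: constants cut at `z = ⌊L^E⌋`, exceptional set of log-power size -/
def S_GPB {k : ℕ} (f : Fin k → ℤ[X]) : Prop := ∀ (ε : ℝ) (U C : ℕ), 0 < ε → ∃ E1 : ℕ, ∀ E : ℕ, E1 ≤ E → ∃ B X₀ : ℕ,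
  ∀ X : ℕ, X₀ ≤ X → ∀ Y : ℕ,
  (∀ l, (X : ℝ) ^ (1 / 3 : ℝ) * Real.log X ^ B ≤ (Y : ℝ) ^ ((f l).natDegree - 1)) →
  (∀ l, (Y : ℝ) ^ (f l).natDegree ≤ X * Real.log X ^ C) →
  ∃ Bad ⊆ Run7.h285.S.Bx k X ×ˢ Ioc Y (2 * Y), (#Bad : ℝ) ≤ (X : ℝ) ^ k * Y / Real.log X ^ U ∧
    ∀ a ∈ Run7.h285.S.Bx k X, ∀ m ∈ Ioc Y (2 * Y), (a, m) ∉ Bad → AdmP f a → 0 < SP f a ⌊Real.log X ^ E⌋₊ ∧
      ∀ H : ℕ, (Y : ℝ) ^ (1 / 3 : ℝ) * Real.log X ^ B ≤ H → 2 * H ≤ Y →
        |(PA f a m H : ℝ) - SP f a ⌊Real.log X ^ E⌋₊ * WA f a m H| ≤ ε * (SP f a ⌊Real.log X ^ E⌋₊ * WA f a m H)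

/-- one scale, arithmetic -/
lemma one_scale (k : ℕ) (L lY G P Md X1 V S W N v r e e' : ℝ) (hL : 10000 ≤ L) (hlY : 0 < lY) (hG : 0 < G)
    (he : 0 < e) (he1 : e ≤ 1 / 4) (hee : 16 * e ≤ e') (hb : 2 ^ (k + 3) / e ≤ L)
    (h1 : |P - Md| ≤ G / L ^ (k + 4)) (h2 : |Md - 1 / L ^ k * X1| ≤ e * (1 / L ^ k) * X1 + 2 ^ (k + 1) * N * v)
    (h3 : |X1 - V * S| ≤ e * S * V + r) (hr : r ≤ G / L ^ 4) (h4 : |W - 1 / L ^ k * V| ≤ e * (1 / L ^ k) * V + 2 ^ (k + 1) * N * 2)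
    (hN : N ≤ G / L ^ (2 * k + 4)) (hN0 : 0 ≤ N) (hv0 : 0 ≤ v) (hv : v ≤ L ^ k) (hV1 : G / (2 * L) ≤ V)
    (hV2 : |V - G / lY| ≤ e * (G / lY)) (hV3 : V ≤ G / lY) (hS : 1 / L ≤ S) (hX1 : 0 ≤ X1) :
    |P - S * W| ≤ e' * (S * W) ∧ |W - G / (L ^ k * lY)| ≤ e' * (G / (L ^ k * lY)) := by
  have hL0 : 0 < L := by linarith
  have hL1 : 1 ≤ L := by linarith
  obtain ⟨c, hc⟩ : ∃ c, c = 1 / L ^ k := ⟨_, rfl⟩
  rw [← hc] at h2 h4
  have hLk : 0 < L ^ k := by positivity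
  have hc0 : 0 < c := by rw [hc]; positivity
  have hS0 : 0 < S := lt_of_lt_of_le (by positivity) hS
  have hV0 : 0 < V := lt_of_lt_of_le (by positivity) hV1
  obtain ⟨U0, hU0⟩ : ∃ U0, U0 = S * c * V := ⟨_, rfl⟩
  have hU00 : 0 < U0 := by rw [hU0]; positivity
  have hb' : 2 ^ (k + 3) ≤ e * L := by rwa [div_le_iff₀' he] at hb
  have h2k : (8 : ℝ) ≤ 2 ^ (k + 3) := by
    have : (1 : ℝ) ≤ 2 ^ k := one_le_pow₀ (by norm_num)
    rw [pow_add]; linarith
  -- the unit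
  have u1 : G / L ^ (k + 2) ≤ 2 * U0 := by
    have a1 : (1 / L) * c * (G / (2 * L)) ≤ S * c * V := by
      apply mul_le_mul _ hV1 (by positivity) (by positivity)
      exact mul_le_mul_of_nonneg_right hS hc0.le
    have a2 : (1 / L) * c * (G / (2 * L)) = G / L ^ (k + 2) / 2 := by
      rw [hc, pow_add]; field_simp
    rw [a2, ← hU0] at a1
    linarith
  have u2 : G / L ^ (k + 4) ≤ e * U0 / 4 := by
    have a1 : G / L ^ (k + 4) = G / L ^ (k + 2) * (1 / L ^ 2) := by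
      have : L ^ (k + 4) = L ^ (k + 2) * L ^ 2 := by ring
      rw [this]; field_simp
    rw [a1]
    have a2 : 1 / L ^ 2 ≤ e / 8 := by
      rw [div_le_iff₀ (by positivity)]
      nlinarith
    calc G / L ^ (k + 2) * (1 / L ^ 2) ≤ (2 * U0) * (e / 8) := mul_le_mul u1 a2 (by positivity) (by positivity)
      _ = e * U0 / 4 := by ring
  have u2' : 2 ^ (k + 1) * (G / L ^ (k + 4)) ≤ e * U0 / 4 := by
    have a1 : 2 ^ (k + 1) * (G / L ^ (k + 4)) = G / L ^ (k + 2) * (2 ^ (k + 1) / L ^ 2) := by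
      have : L ^ (k + 4) = L ^ (k + 2) * L ^ 2 := by ring
      rw [this]; field_simp
    rw [a1]
    have a2 : 2 ^ (k + 1) / L ^ 2 ≤ e / 8 := by
      rw [div_le_iff₀ (by positivity)]
      have : (2 : ℝ) ^ (k + 3) = 4 * 2 ^ (k + 1) := by ring
      nlinarith
    calc G / L ^ (k + 2) * (2 ^ (k + 1) / L ^ 2) ≤ (2 * U0) * (e / 8) := mul_le_mul u1 a2 (by positivity) (by positivity)
      _ = e * U0 / 4 := by ring
  -- the small values
  have n1 : 2 ^ (k + 1) * N * v ≤ e * U0 / 4 := by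
    refine le_trans ?_ u2'
    have a1 : N * v ≤ G / L ^ (2 * k + 4) * L ^ k := mul_le_mul hN hv hv0 (by positivity)
    have a2 : G / L ^ (2 * k + 4) * L ^ k = G / L ^ (k + 4) := by
      have : L ^ (2 * k + 4) = L ^ (k + 4) * L ^ k := by ring
      rw [this]; field_simp
    rw [a2] at a1
    calc 2 ^ (k + 1) * N * v = 2 ^ (k + 1) * (N * v) := by ring
      _ ≤ _ := mul_le_mul_of_nonneg_left a1 (by positivity)
  have n2 : 2 ^ (k + 1) * N * 2 ≤ e * (c * V) / 2 := by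
    have a1 : G / L ^ (2 * k + 4) ≤ c * V * (2 / L ^ (k + 3)) := by
      have a2 : c * (G / (2 * L)) * (2 / L ^ (k + 3)) = G / L ^ (2 * k + 4) := by
        rw [hc]
        have : L ^ (2 * k + 4) = L ^ k * L * L ^ (k + 3) := by ring
        rw [this]; field_simp
      rw [← a2]
      apply mul_le_mul_of_nonneg_right _ (by positivity)
      exact mul_le_mul_of_nonneg_left hV1 hc0.le
    have a3 : 2 ^ (k + 1) * 2 * (2 / L ^ (k + 3)) ≤ e / 2 := by
      have a4 : 2 * L ≤ L ^ (k + 3) := by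
        have a7 : L ^ 2 ≤ L ^ (k + 3) := pow_le_pow_right₀ hL1 (by omega)
        nlinarith
      have a5 : (2 : ℝ) ^ (k + 3) = 4 * 2 ^ (k + 1) := by ring
      rw [mul_div_assoc', div_le_iff₀ (by positivity)]
      have a6 : e * (2 * L) ≤ e * L ^ (k + 3) := mul_le_mul_of_nonneg_left a4 he.le
      linarith
    calc 2 ^ (k + 1) * N * 2 ≤ 2 ^ (k + 1) * (c * V * (2 / L ^ (k + 3))) * 2 := by
          have := hN.trans a1
          gcongr
      _ = (2 ^ (k + 1) * 2 * (2 / L ^ (k + 3))) * (c * V) := by ring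
      _ ≤ e / 2 * (c * V) := mul_le_mul_of_nonneg_right a3 (by positivity)
      _ = _ := by ring
  have r1 : c * r ≤ e * U0 / 4 := by
    refine le_trans ?_ u2
    calc c * r ≤ c * (G / L ^ 4) := mul_le_mul_of_nonneg_left hr hc0.le
      _ = G / L ^ (k + 4) := by rw [hc, pow_add]; field_simp
  -- the sum over the primes
  have b3 := abs_le.1 h3
  have x1 : c * X1 ≤ 2 * U0 := by
    have a1 : X1 ≤ V * S + e * S * V + r := by linarith
    have a2 : c * X1 ≤ U0 + e * U0 + c * r := by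
      have := mul_le_mul_of_nonneg_left a1 hc0.le
      calc c * X1 ≤ c * (V * S + e * S * V + r) := this
        _ = U0 + e * U0 + c * r := by rw [hU0]; ring
    nlinarith
  have x2 : |c * X1 - U0| ≤ e * U0 + e * U0 / 4 := by
    have e1 : c * X1 - U0 = c * (X1 - V * S) := by rw [hU0]; ring
    rw [e1, abs_mul, abs_of_pos hc0]
    calc c * |X1 - V * S| ≤ c * (e * S * V + r) := mul_le_mul_of_nonneg_left h3 hc0.le
      _ = e * U0 + c * r := by rw [hU0]; ring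
      _ ≤ _ := by linarith
  have w1 : |S * W - U0| ≤ e * U0 + e * U0 / 2 := by
    have e1 : S * W - U0 = S * (W - c * V) := by rw [hU0]; ring
    rw [e1, abs_mul, abs_of_pos hS0]
    calc S * |W - c * V| ≤ S * (e * c * V + 2 ^ (k + 1) * N * 2) := mul_le_mul_of_nonneg_left h4 hS0.le
      _ ≤ S * (e * c * V + e * (c * V) / 2) := by
          apply mul_le_mul_of_nonneg_left _ hS0.le
          linarith
      _ = _ := by rw [hU0]; ring
  have hex : e * (c * X1) ≤ e * (2 * U0) := mul_le_mul_of_nonneg_left x1 he.le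
  have b1 := abs_le.1 h1
  have b2 := abs_le.1 h2
  have b5 := abs_le.1 x2
  have b6 := abs_le.1 w1
  have heU : 0 < e * U0 := by positivity
  have hSW : U0 / 2 ≤ S * W := by
    have : e * U0 ≤ 1 / 4 * U0 := mul_le_mul_of_nonneg_right he1 hU00.le
    linarith
  have he'0 : 0 < e' := by linarith
  constructor
  · have a1 : |P - S * W| ≤ 8 * (e * U0) := by
      have e2 : e * c * X1 = e * (c * X1) := by ring
      rw [abs_le]
      constructor <;> linarith
    refine a1.trans ?_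
    calc 8 * (e * U0) = 16 * e * (U0 / 2) := by ring
      _ ≤ e' * (S * W) := mul_le_mul hee hSW (by positivity) he'0.le
  · have e3 : G / (L ^ k * lY) = c * (G / lY) := by rw [hc]; field_simp
    rw [e3]
    have a1 : |c * V - c * (G / lY)| ≤ e * (c * (G / lY)) := by
      rw [← mul_sub, abs_mul, abs_of_pos hc0]
      calc c * |V - G / lY| ≤ c * (e * (G / lY)) := mul_le_mul_of_nonneg_left hV2 hc0.le
        _ = _ := by ring
    have a2 : c * V ≤ c * (G / lY) := mul_le_mul_of_nonneg_left hV3 hc0.le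
    have a3 : 0 < c * (G / lY) := by positivity
    have a4 : e * (c * V) ≤ e * (c * (G / lY)) := mul_le_mul_of_nonneg_left a2 he.le
    have a5 := abs_le.1 a1
    have a6 := abs_le.1 h4
    have a7 : 3 * (e * (c * (G / lY))) ≤ e' * (c * (G / lY)) := by
      have : 3 * e ≤ e' := by linarith
      calc 3 * (e * (c * (G / lY))) = 3 * e * (c * (G / lY)) := by ring
        _ ≤ _ := mul_le_mul_of_nonneg_right this a3.le
    have e4 : e * c * V = e * (c * V) := by ring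
    rw [abs_le]
    constructor <;> linarith

/-- the weights `1 / log n` in a window -/
lemma win_wt (Y m G : ℕ) (e : ℝ) (he : 0 < e) (hY : 10000 ≤ Real.log Y) (hbe : 2 / e ≤ Real.log Y) (hm : m ∈ Ioc Y (2 * Y)) (hG : G ≤ Y) :
    |∑ n ∈ Ioc m (m + G), wt n - G / Real.log Y| ≤ e * (G / Real.log Y) ∧ ∑ n ∈ Ioc m (m + G), wt n ≤ G / Real.log Y ∧
      G / (2 * Real.log Y) ≤ ∑ n ∈ Ioc m (m + G), wt n := by
  rw [mem_Ioc] at hm
  have hY1 : 1 ≤ Y := by
    rcases Nat.eq_zero_or_pos Y with h | h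
    · rw [h] at hY; norm_num at hY
    · exact h
  have hY0 : (0 : ℝ) < Y := by exact_mod_cast hY1
  obtain ⟨l, hl⟩ : ∃ l, l = Real.log Y := ⟨_, rfl⟩
  rw [← hl] at hY hbe ⊢
  have hl0 : 0 < l := by linarith
  have hb : ∀ n ∈ Ioc m (m + G), wt n ≤ 1 / l ∧ 1 / (l + 2) ≤ wt n := by
    intro n hn
    rw [mem_Ioc] at hn
    have h1 : (Y : ℝ) ≤ n := by
      have : Y ≤ n := by omega
      exact_mod_cast this
    have h2 : (n : ℝ) ≤ 3 * Y := by
      have : n ≤ 3 * Y := by omega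
      exact_mod_cast this
    have h3 : l ≤ Real.log n := by rw [hl]; exact Real.log_le_log hY0 h1
    have h4 : Real.log n ≤ l + 2 := by
      have h5 : Real.log n ≤ Real.log (3 * Y) := Real.log_le_log (by linarith) h2
      rw [Real.log_mul (by norm_num) hY0.ne', ← hl] at h5
      have h6 : Real.log 3 ≤ 2 := by
        have := Real.log_le_sub_one_of_pos (show (0 : ℝ) < 3 by norm_num)
        linarith
      linarith
    unfold wt
    exact ⟨one_div_le_one_div_of_le hl0 h3, one_div_le_one_div_of_le (by linarith) h4⟩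
  have hu : ∑ n ∈ Ioc m (m + G), wt n ≤ G / l := by
    refine (sum_le_sum fun n hn => (hb n hn).1).trans (le_of_eq ?_)
    rw [sum_const, Nat.card_Ioc, Nat.add_sub_cancel_left, nsmul_eq_mul, mul_one_div]
  have hd : G / (l + 2) ≤ ∑ n ∈ Ioc m (m + G), wt n := by
    refine le_trans (le_of_eq ?_) (sum_le_sum fun n hn => (hb n hn).2)
    rw [sum_const, Nat.card_Ioc, Nat.add_sub_cancel_left, nsmul_eq_mul, mul_one_div]
  have hG0 : (0 : ℝ) ≤ G := Nat.cast_nonneg _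
  have h5 : (1 - e) * (G / l) ≤ G / (l + 2) := by
    rw [div_le_iff₀ he] at hbe
    have h6 : (1 - e) * (1 / l) ≤ 1 / (l + 2) := by
      rw [mul_one_div, div_le_div_iff₀ hl0 (by linarith)]
      nlinarith
    calc (1 - e) * (G / l) = G * ((1 - e) * (1 / l)) := by ring
      _ ≤ G * (1 / (l + 2)) := mul_le_mul_of_nonneg_left h6 hG0
      _ = _ := by ring
  have h6 : G / (2 * l) ≤ G / (l + 2) := div_le_div_of_nonneg_left hG0 (by linarith) (by linarith)
  refine ⟨?_, hu, h6.trans hd⟩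
  rw [abs_le]
  have : 0 ≤ e * (G / l) := by positivity
  constructor <;> linarith

end Run7.h285.A
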