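import Pool.Agent.Run7.h285.A.GPAa

/-!
# Project GENP: the assembly
-/

set_option autoImplicit false

namespace Run7.h285.A

open Finset Filter Topology Polynomial
open Pool.Agent.H373R2.T7 (pz Vz lamz mem_pz Vz_ge)
open Pool.Agent.TH892.SW (ff wt wt_nonneg wt_le)
open Pool.Agent.TH892.OW (evt_ll)
open Run7.h285.E3 (wt_le')
open Run7.h285.S (Bx uu vv ll gg cheb prod_close pow_small wt_close card_Bx)
open Run7.h285.G (Gd pr MM nn near sum_near pr_vv pr_ll_nonneg pr_ll_le val_all)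
open Run7.h285.X (scal scal_ge scal_lt all_scales)
open Pool.Agent.H442R2.EHI (evt_log_pow evt_log_ge)

/-- the indicator function of the primes -/
def om (n : ℕ) : ℝ := if n.Prime then 1 else 0

lemma om_abs (n : ℕ) : |om n| ≤ 1 := by
  unfold om; split_ifs <;> simp

lemma om_nonneg (n : ℕ) : 0 ≤ om n := by
  unfold om; split_ifs <;> simp

lemma om_le (n : ℕ) : om n ≤ 1 := by
  unfold om; split_ifs <;> simp

lemma PA_eq {k : ℕ} (f : Fin k → ℤ[X]) (a : Fin k → ℤ) (m H : ℕ) :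
    (PA f a m H : ℝ) = ∑ n ∈ Ioc m (m + H), om n * pr f (fun _ => uu) a n := by
  unfold PA pr uu om
  rw [← sum_boole]
  refine sum_congr rfl fun n _ => ?_
  rw [prod_ite_zero]
  simp only [prod_const_one, mem_univ, true_implies]
  by_cases h1 : n.Prime <;> by_cases h2 : ∀ i : Fin k, (eval (n : ℤ) (f i) + a i).natAbs.Prime <;> simp [h1, h2]

lemma PA_mono {k : ℕ} (f : Fin k → ℤ[X]) (a : Fin k → ℤ) (m : ℕ) : Monotone (fun H : ℕ => (PA f a m H : ℝ)) := by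
  intro H H' h
  show (PA f a m H : ℝ) ≤ (PA f a m H' : ℝ)
  unfold PA
  have : #((Ioc m (m + H)).filter (fun n : ℕ => n.Prime ∧ ∀ l, ((f l).eval (n : ℤ) + a l).natAbs.Prime)) ≤
      #((Ioc m (m + H')).filter (fun n : ℕ => n.Prime ∧ ∀ l, ((f l).eval (n : ℤ) + a l).natAbs.Prime)) := by
    apply card_le_card
    apply filter_subset_filter
    apply Ioc_subset_Ioc_right
    omega
  exact_mod_cast this

lemma WA_mono {k : ℕ} (f : Fin k → ℤ[X]) (a : Fin k → ℤ) (m : ℕ) : Monotone (fun H : ℕ => WA f a m H) := by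
  intro H H' h
  show WA f a m H ≤ WA f a m H'
  unfold WA
  apply sum_le_sum_of_subset_of_nonneg
  · apply Ioc_subset_Ioc_right
    omega
  · intro n _ _
    exact mul_nonneg (wt_nonneg _) (prod_nonneg fun _ _ => wt_nonneg _)

/-- the small values, arithmetic -/
lemma ar_nn' (k : ℕ) (hk : 1 ≤ k) (X L κ : ℝ) (A : ℕ) (hX : 1 ≤ X) (hL : 1 ≤ L) (hκ : κ = X / L ^ A) (hLX : L ^ A ≤ X) :
    (2 * κ + 1) * (2 * X + 1) ^ (k - 1) ≤ (3 * X) ^ k / L ^ A := by
  have hL0 : 0 < L := by linarith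
  have hX0 : 0 < X := by linarith
  have hLp : 0 < L ^ A := by positivity
  have h1 : 2 * κ + 1 ≤ 3 * X / L ^ A := by
    have : 1 ≤ X / L ^ A := by rw [one_le_div hLp]; exact hLX
    have e : 3 * X / L ^ A = 2 * (X / L ^ A) + X / L ^ A := by ring
    rw [hκ, e]; linarith
  have h2 : (2 * X + 1) ^ (k - 1) ≤ (3 * X) ^ (k - 1) := pow_le_pow_left₀ (by positivity) (by linarith) _
  have e : (3 * X) ^ k = 3 * X * (3 * X) ^ (k - 1) := by rw [← pow_succ', Nat.sub_add_cancel hk]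
  calc (2 * κ + 1) * (2 * X + 1) ^ (k - 1) ≤ 3 * X / L ^ A * (3 * X) ^ (k - 1) :=
        mul_le_mul h1 h2 (by positivity) (by positivity)
    _ = _ := by rw [e]; ring

/-- the sizes of the two logarithms -/
lemma logs (X Y L : ℝ) (d C : ℕ) (hd : 2 ≤ d) (hL : L = Real.log X) (hX : 1 ≤ X) (hL1 : 1 ≤ L) (hY : 1 ≤ Y)
    (hCL : C * Real.log L ≤ L) (h1 : X ^ (1 / 3 : ℝ) ≤ Y ^ (d - 1)) (h2 : Y ^ d ≤ X * L ^ C) :
    Real.log Y ≤ L ∧ L ≤ 3 * d * Real.log Y := by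
  have hX0 : 0 < X := by linarith
  have hY0 : 0 < Y := by linarith
  have hL0 : 0 < L := by linarith
  have hly : 0 ≤ Real.log Y := Real.log_nonneg hY
  have hd2 : (2 : ℝ) ≤ d := by exact_mod_cast hd
  constructor
  · have h3 := Real.log_le_log (by positivity) h2
    rw [Real.log_pow, Real.log_mul hX0.ne' (by positivity), Real.log_pow, ← hL] at h3
    nlinarith
  · have h3 : X ^ (1 / 3 : ℝ) ≤ Y ^ d := h1.trans (pow_le_pow_right₀ hY (by omega))
    have h4 := Real.log_le_log (by positivity) h3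
    rw [Real.log_pow, Real.log_rpow hX0, ← hL] at h4
    linarith

lemma pow_log (L l K : ℝ) (n : ℕ) (hL : 0 < L) (_hK : 0 < K) (hl : 0 < l) (h : L ≤ K * l) (hb : K ^ (n + 1) ≤ L) :
    L ^ n ≤ l ^ (n + 1) := by
  have h1 : L ^ (n + 1) ≤ (K * l) ^ (n + 1) := pow_le_pow_left₀ hL.le h _
  rw [mul_pow] at h1
  have h2 : K ^ (n + 1) * l ^ (n + 1) ≤ L * l ^ (n + 1) := mul_le_mul_of_nonneg_right hb (by positivity)
  have h3 : L ^ n * L ≤ l ^ (n + 1) * L := by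
    calc L ^ n * L = L ^ (n + 1) := by ring
      _ ≤ L * l ^ (n + 1) := h1.trans h2
      _ = _ := by ring
  exact le_of_mul_le_mul_right h3 hL

open Classical in
/-- **GPB** -/
theorem gpb {k : ℕ} (f : Fin k → ℤ[X]) (hk : 1 ≤ k) (hgd : ∀ l, Gd (f l)) (h1 : S_GSP f) (h2 : S_PAW) (h3 : S_FLP f) :
    S_GPB f := by
  intro ε₀ U C hε₀
  obtain ⟨ε, hεd⟩ : ∃ ε, ε = min ε₀ 1 := ⟨_, rfl⟩
  have hε : 0 < ε := by rw [hεd]; exact lt_min hε₀ one_pos
  have hεl : ε ≤ 1 := by rw [hεd]; exact min_le_right _ _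
  have hεe : ε ≤ ε₀ := by rw [hεd]; exact min_le_left _ _
  clear hεd
  obtain ⟨e', he'⟩ : ∃ e', e' = ε / 40 := ⟨_, rfl⟩
  obtain ⟨e, he⟩ : ∃ e, e = e' / 16 := ⟨_, rfl⟩
  have he'0 : 0 < e' := by rw [he']; positivity
  have he0 : 0 < e := by rw [he]; positivity
  have he1 : e ≤ 1 / 4 := by rw [he, he']; linarith
  have hee : 16 * e ≤ e' := by rw [he]; linarith
  obtain ⟨ε₃, he30, he31⟩ := pow_small k e he0
  obtain ⟨K2, hK20, hK22, hKv⟩ := val_all f
  obtain ⟨C1, y0, hC1, hy0, hfl⟩ := h3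
  obtain ⟨b, hb1, hb2⟩ : ∃ b : ℕ, C1 ≤ b ∧ 2 * (1 / 2 : ℝ) ^ b ≤ e := by
    obtain ⟨n, hn⟩ := exists_pow_lt_of_lt_one (show (0 : ℝ) < e / 2 by positivity) (show (1 / 2 : ℝ) < 1 by norm_num)
    refine ⟨C1 + n, by omega, ?_⟩
    have h4 : (1 / 2 : ℝ) ^ (C1 + n) ≤ (1 / 2 : ℝ) ^ n := pow_le_pow_of_le_one (by norm_num) (by norm_num) (by omega)
    linarith
  obtain ⟨E1, h1⟩ := h1 (2 * k + 8 + (U + 3)) (C + 1)
  refine ⟨E1 + 1, fun E hE => ?_⟩
  obtain ⟨B1, Xa, h1⟩ := h1 E (by omega)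
  obtain ⟨A, hA⟩ : ∃ A, A = 3 * (E * (C1 * b)) + 10 := ⟨_, rfl⟩
  obtain ⟨B2, Y₀, h2⟩ := h2 (A + 1) (U + 4)
  obtain ⟨Xc, hVz⟩ := Run7.h285.E2.Vz_sqrt E (by omega)
  obtain ⟨A0, hA0⟩ : ∃ A0, A0 = 2 * k + 4 + (U + 3) := ⟨_, rfl⟩
  obtain ⟨Xd, hwc⟩ := wt_close A0 (C + 3) ε₃ he30
  obtain ⟨Xs, hsp⟩ := sp_log f hgd E (by omega)
  obtain ⟨lam, hlam⟩ : ∃ lam, lam = 1 + ε / 10 := ⟨_, rfl⟩
  have hlam1 : 1 < lam := by rw [hlam]; have : 0 < ε / 10 := by positivity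
                             linarith
  have hloglam : 0 < Real.log lam := Real.log_pos hlam1
  obtain ⟨LJ, hLJ⟩ : ∃ LJ, LJ = 1 / Real.log lam + 1 := ⟨_, rfl⟩
  have hLJ0 : 0 < LJ := by rw [hLJ]; positivity
  obtain ⟨d, hd⟩ : ∃ d, d = (f ⟨0, hk⟩).natDegree := ⟨_, rfl⟩
  have hd2 : 2 ≤ d := by rw [hd]; exact (hgd ⟨0, hk⟩).1
  have hd0 : (0 : ℝ) < 3 * d := by
    have : (0 : ℝ) < d := by exact_mod_cast (by omega : 0 < d)
    positivity
  have hev : ∀ᶠ X : ℕ in atTop, (10000 + 10 / ε + 2 ^ (k + 3) / e + K2 + ∑ l, (3 : ℝ) ^ (f l).natDegree +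
        2 * (LJ * (1 + k * 3 ^ k)) + 2 * 3 ^ k + (3 * (d : ℝ)) ^ (A + 1) + (3 * (d : ℝ)) ^ (U + 4) +
        3 * d * (Real.log (Y₀ + 1) + 10000 + 2 / e) + (y0 : ℝ) : ℝ) ≤ Real.log X ∧
      Real.log X ^ A0 ≤ (X : ℝ) ^ (1 : ℝ) ∧ C * Real.log (Real.log X) ^ 1 ≤ Real.log X ^ (1 : ℝ) := by
    filter_upwards [evt_log_ge _, evt_log_pow A0 1 (by norm_num), evt_ll 1 1 C (by norm_num)] with X a1 a2 a3
    exact ⟨a1, a2, a3⟩
  obtain ⟨Xe, hXe⟩ := eventually_atTop.1 hev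
  refine ⟨B1 + B2 + 1, Xa + Xc + Xd + Xs + Xe, fun X hX Y hM hW => ?_⟩
  have h1 := h1 X (by omega) Y Y
  have hVz := hVz X (by omega)
  have hwc := hwc X (by omega)
  have hsp := hsp X (by omega)
  obtain ⟨hl, hlX, hlC⟩ := hXe X (by omega)
  clear hXe hev
  have p1 : 0 < 10 / ε := by positivity
  have p2 : 0 < 2 ^ (k + 3) / e := by positivity
  have p3 : 0 ≤ ∑ l, (3 : ℝ) ^ (f l).natDegree := sum_nonneg fun _ _ => by positivity
  have p4 : 0 < 2 * (LJ * (1 + k * 3 ^ k)) := by positivity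
  have p5 : (0 : ℝ) < 2 * 3 ^ k := by positivity
  have p6 : 0 < (3 * (d : ℝ)) ^ (A + 1) := by positivity
  have p7 : 0 < (3 * (d : ℝ)) ^ (U + 4) := by positivity
  have p8 : 0 ≤ Real.log ((Y₀ : ℝ) + 1) := Real.log_nonneg (by
    have : (0 : ℝ) ≤ Y₀ := Nat.cast_nonneg _
    linarith)
  have p9 : 0 < 3 * (d : ℝ) * (Real.log (Y₀ + 1) + 10000 + 2 / e) := by positivity
  have p10 : (0 : ℝ) ≤ y0 := Nat.cast_nonneg _
  have g0 : 10000 ≤ Real.log X := by linarith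
  have g1 : 10 / ε ≤ Real.log X := by linarith
  have g2 : 2 ^ (k + 3) / e ≤ Real.log X := by linarith
  have g3 : K2 ≤ Real.log X := by linarith
  have g4 : ∀ l, (3 : ℝ) ^ (f l).natDegree ≤ Real.log X := by
    intro l
    have : (3 : ℝ) ^ (f l).natDegree ≤ ∑ l, (3 : ℝ) ^ (f l).natDegree :=
      single_le_sum (f := fun l => (3 : ℝ) ^ (f l).natDegree) (fun _ _ => by positivity) (mem_univ l)
    linarith
  have g5 : 2 * (LJ * (1 + k * 3 ^ k)) ≤ Real.log X := by linarith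
  have g6 : 2 * 3 ^ k ≤ Real.log X := by linarith
  have g7 : (3 * (d : ℝ)) ^ (A + 1) ≤ Real.log X := by linarith
  have g8 : (3 * (d : ℝ)) ^ (U + 4) ≤ Real.log X := by linarith
  have g9 : 3 * (d : ℝ) * (Real.log (Y₀ + 1) + 10000 + 2 / e) ≤ Real.log X := by linarith
  have g10 : (y0 : ℝ) ≤ Real.log X := by linarith
  clear hl p1 p2 p3 p4 p5 p6 p7 p9 p10
  have hl1 : 1 ≤ Real.log X := by linarith
  have hXp : 1 ≤ X := by
    rcases Nat.eq_zero_or_pos X with h | h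
    · rw [h] at hl1; norm_num at hl1
    · exact h
  have hX1 : (1 : ℝ) ≤ X := by exact_mod_cast hXp
  have hX0 : (0 : ℝ) < X := by linarith
  rw [Real.rpow_one] at hlX
  rw [Real.rpow_one, pow_one] at hlC
  have hM3 : ∀ i, (X : ℝ) ^ (1 / 3 : ℝ) ≤ (Y : ℝ) ^ ((f i).natDegree - 1) := by
    intro i
    refine le_trans ?_ (hM i)
    exact le_mul_of_one_le_right (by positivity) (one_le_pow₀ hl1)
  have hY1 : (1 : ℝ) ≤ Y := by
    have h5 := hM3 ⟨0, hk⟩
    have h4 : 1 ≤ (X : ℝ) ^ (1 / 3 : ℝ) := Real.one_le_rpow hX1 (by norm_num)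
    rw [← hd] at h5
    rcases Nat.eq_zero_or_pos Y with h | h
    · rw [h, Nat.cast_zero, zero_pow (by omega)] at h5
      linarith
    · exact_mod_cast h
  have hY0 : (0 : ℝ) < Y := by linarith
  generalize hll : Real.log (X : ℝ) = L at *
  have hL0 : 0 < L := by linarith
  obtain ⟨lY, hlY⟩ : ∃ lY, lY = Real.log (Y : ℝ) := ⟨_, rfl⟩
  obtain ⟨y1, y2⟩ := logs X Y L d C hd2 hll.symm hX1 hl1 hY1 hlC (by rw [hd]; exact hM3 ⟨0, hk⟩) (by rw [hd]; exact hW ⟨0, hk⟩)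
  rw [← hlY] at y1 y2
  have y3 : Real.log (Y₀ + 1) + 10000 + 2 / e ≤ lY := by
    have : 3 * (d : ℝ) * (Real.log (Y₀ + 1) + 10000 + 2 / e) ≤ 3 * d * lY := g9.trans y2
    exact le_of_mul_le_mul_left this hd0
  have p11 : 0 < 2 / e := by positivity
  have y4 : 10000 ≤ lY := by linarith
  have y5 : 2 / e ≤ lY := by linarith
  have y0' : 0 < lY := by linarith
  have hYY : Y₀ ≤ Y := by
    have h4 : Real.log ((Y₀ : ℝ) + 1) ≤ Real.log Y := by rw [← hlY]; linarith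
    have h5 : (Y₀ : ℝ) + 1 ≤ Y := (Real.log_le_log_iff (by positivity) hY0).1 h4
    have h6 : (Y₀ : ℝ) ≤ Y := by linarith
    exact_mod_cast h6
  have lA : L ^ A ≤ lY ^ (A + 1) := pow_log L lY (3 * d) A hL0 hd0 y0' y2 g7
  have lU : L ^ (U + 3) ≤ lY ^ (U + 4) := pow_log L lY (3 * d) (U + 3) hL0 hd0 y0' y2 g8
  obtain ⟨BadP, hBP1, hBP2, hBP3⟩ := h2 Y hYY
  rw [← hlY] at hBP2 hBP3
  rw [two_mul Y] at hBP1 hBP3 ⊢
  obtain ⟨z, hz⟩ : ∃ z, z = ⌊L ^ E⌋₊ := ⟨_, rfl⟩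
  rw [← hz] at h1 hVz hsp ⊢
  have hLE : L ≤ L ^ E := le_self_pow₀ hl1 (by omega)
  have hzL : (z : ℝ) ≤ L ^ E := by rw [hz]; exact Nat.floor_le (by positivity)
  have hz2 : 2 ≤ z := by
    rw [hz]
    apply Nat.le_floor
    push_cast
    linarith
  have hzy : y0 ≤ z := by
    rw [hz]
    apply Nat.le_floor
    linarith
  clear hz
  obtain ⟨t, ht⟩ : ∃ t, t = (Y : ℝ) ^ (1 / 3 : ℝ) * L ^ (B1 + B2 + 1) := ⟨_, rfl⟩
  rw [← ht]
  have hY3 : 1 ≤ (Y : ℝ) ^ (1 / 3 : ℝ) := Real.one_le_rpow hY1 (by norm_num)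
  have ht1 : L ≤ t := by
    rw [ht]
    have h4 : L ≤ L ^ (B1 + B2 + 1) := le_self_pow₀ hl1 (by omega)
    have h5 := mul_le_mul hY3 h4 hL0.le (zero_le_one.trans hY3)
    rwa [one_mul] at h5
  have ht2 : L ^ B1 ≤ t := by
    rw [ht]
    have h4 : L ^ B1 ≤ L ^ (B1 + B2 + 1) := pow_le_pow_right₀ hl1 (by omega)
    have h5 := mul_le_mul hY3 h4 (pow_nonneg hL0.le _) (zero_le_one.trans hY3)
    rwa [one_mul] at h5
  have ht3 : (Y : ℝ) ^ (1 / 3 : ℝ) * lY ^ B2 ≤ t := by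
    rw [ht]
    apply mul_le_mul_of_nonneg_left _ (by positivity)
    exact (pow_le_pow_left₀ y0'.le y1 _).trans (pow_le_pow_right₀ hl1 (by omega))
  have ht0 : 0 < t := by linarith
  clear ht
  obtain ⟨κ, hκ⟩ : ∃ κ, κ = (X : ℝ) / L ^ A0 := ⟨_, rfl⟩
  have hκ0 : 0 ≤ κ := by rw [hκ]; positivity
  obtain ⟨J, hJ⟩ : ∃ J, J = ⌊L / Real.log lam⌋₊ + 1 := ⟨_, rfl⟩
  have hJs : ∀ j, scal t lam j ≤ Y → j < J := by
    intro j hj
    have h4 := scal_ge t lam j
    have h5 : t * lam ^ j ≤ Y := by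
      have : ((scal t lam j : ℕ) : ℝ) ≤ Y := by exact_mod_cast hj
      linarith
    have h6 : lam ^ j ≤ Y :=
      (le_mul_of_one_le_left (pow_nonneg (zero_le_one.trans hlam1.le) j) (hl1.trans ht1)).trans h5
    have h7 := Real.log_le_log (by positivity) h6
    rw [Real.log_pow, ← hlY] at h7
    rw [hJ]
    have h8 : j ≤ ⌊L / Real.log lam⌋₊ := by
      apply Nat.le_floor
      rw [le_div_iff₀ hloglam]
      linarith
    omega
  have hJL : (J : ℝ) ≤ LJ * L := by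
    rw [hJ, hLJ]
    push_cast
    have := Nat.floor_le (show 0 ≤ L / Real.log lam by positivity)
    have e1 : (1 / Real.log lam + 1) * L = L / Real.log lam + L := by ring
    rw [e1]
    linarith
  have hXY : 0 < (X : ℝ) ^ k * Y := by positivity
  -- the bad pairs at one scale
  obtain ⟨D, hD⟩ : ∃ D : (Fin k → ℤ) → ℕ → ℕ → ℝ, D = fun a m G =>
    ∑ n ∈ Ioc m (m + G), om n * (pr f (fun _ => uu) a n - pr f (fun _ => vv z) a n) := ⟨_, rfl⟩
  have c1 : ∀ G : ℕ, t ≤ G → G ≤ Y →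
      (#((Bx k X ×ˢ Ioc Y (Y + Y)).filter (fun p => (G : ℝ) / L ^ (k + 4) < |D p.1 p.2 G|)) : ℝ) ≤
        (X : ℝ) ^ k * Y / L ^ (U + 3) := by
    intro G hG1 hG2
    have hG0 : (0 : ℝ) < G := by linarith
    have h4 := h1 G (ht2.trans hG1) (by
      intro l
      refine le_trans ?_ (hM l)
      apply mul_le_mul_of_nonneg_left _ (by positivity)
      exact pow_le_pow_right₀ hl1 (by omega)) (by
      intro l
      have h5 : (Y : ℝ) + G + Y ≤ 3 * Y := by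
        have : (G : ℝ) ≤ Y := by exact_mod_cast hG2
        linarith
      calc ((Y : ℝ) + G + Y) ^ (f l).natDegree ≤ (3 * Y) ^ (f l).natDegree := pow_le_pow_left₀ (by positivity) h5 _
        _ = 3 ^ (f l).natDegree * (Y : ℝ) ^ (f l).natDegree := by rw [mul_pow]
        _ ≤ L * (X * L ^ C) := mul_le_mul (g4 l) (hW l) (by positivity) hL0.le
        _ = X * L ^ (C + 1) := by ring) om om_abs
    have h5 := cheb (Bx k X) (Ioc Y (Y + Y)) (fun a m => D a m G) ((G : ℝ) / L ^ (k + 4))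
      ((X : ℝ) ^ k * (Y * (G : ℝ) ^ 2 / L ^ (2 * k + 8 + (U + 3)))) (by positivity) (by
        rw [hD]
        exact h4)
    refine h5.trans (le_of_eq ?_)
    have e1 : L ^ (2 * k + 8 + (U + 3)) = (L ^ (k + 4)) ^ 2 * L ^ (U + 3) := by ring
    rw [e1]
    field_simp
  have c2 : ∀ G : ℕ, t ≤ G →
      (#((Bx k X ×ˢ Ioc Y (Y + Y)).filter (fun p => (G : ℝ) / L ^ (2 * k + 4) < (nn f p.1 p.2 G κ : ℝ))) : ℝ) ≤
        k * 3 ^ k * ((X : ℝ) ^ k * Y / L ^ (U + 3)) := by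
    intro G hG1
    have hG0 : (0 : ℝ) < G := by linarith
    have h4 := near f X Y Y G κ ((G : ℝ) / L ^ (2 * k + 4)) hκ0 (by positivity)
    refine h4.trans ?_
    have h5 := ar_nn' k hk X L κ A0 hX1 hl1 hκ hlX
    have h6 : (Y : ℝ) * (G * (k * ((2 * κ + 1) * (2 * X + 1) ^ (k - 1)))) / ((G : ℝ) / L ^ (2 * k + 4)) ≤
        (Y : ℝ) * (G * (k * ((3 * (X : ℝ)) ^ k / L ^ A0))) / ((G : ℝ) / L ^ (2 * k + 4)) := by gcongr
    refine h6.trans (le_of_eq ?_)
    have e1 : L ^ A0 = L ^ (2 * k + 4) * L ^ (U + 3) := by rw [hA0]; ring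
    rw [e1, mul_pow]
    field_simp
  obtain ⟨bd, hbd⟩ : ∃ bd : ℕ → (Fin k → ℤ) × ℕ → Prop, bd = fun (G : ℕ) (p : (Fin k → ℤ) × ℕ) =>
    (G : ℝ) / L ^ (k + 4) < |D p.1 p.2 G| ∨ (G : ℝ) / L ^ (2 * k + 4) < (nn f p.1 p.2 G κ : ℝ) := ⟨_, rfl⟩
  obtain ⟨Sf, hSf⟩ : ∃ Sf, Sf = Bx k X ×ˢ Ioc Y (Y + Y) := ⟨_, rfl⟩
  have c3 : ∀ G : ℕ, t ≤ G → G ≤ Y → (#(Sf.filter (bd G)) : ℝ) ≤ (1 + k * 3 ^ k) * ((X : ℝ) ^ k * Y / L ^ (U + 3)) := by
    intro G hG1 hG2
    have h4 : Sf.filter (bd G) ⊆ (Sf.filter (fun p => (G : ℝ) / L ^ (k + 4) < |D p.1 p.2 G|)) ∪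
        (Sf.filter (fun p => (G : ℝ) / L ^ (2 * k + 4) < (nn f p.1 p.2 G κ : ℝ))) := by
      intro p hp
      rw [mem_filter, hbd] at hp
      rw [mem_union, mem_filter, mem_filter]
      rcases hp.2 with h5 | h5
      · exact Or.inl ⟨hp.1, h5⟩
      · exact Or.inr ⟨hp.1, h5⟩
    have h5 := (card_le_card h4).trans (card_union_le _ _)
    have h6 := c1 G hG1 hG2
    have h7 := c2 G hG1
    rw [← hSf] at h6 h7
    have h8 : (#(Sf.filter (bd G)) : ℝ) ≤ (#(Sf.filter (fun p => (G : ℝ) / L ^ (k + 4) < |D p.1 p.2 G|)) : ℝ) +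
        (#(Sf.filter (fun p => (G : ℝ) / L ^ (2 * k + 4) < (nn f p.1 p.2 G κ : ℝ))) : ℝ) := by exact_mod_cast h5
    linarith
  obtain ⟨Bad, hBad⟩ : ∃ Bad, Bad = Sf.filter (fun p => p.2 ∈ BadP ∨ ∃ j, j < J ∧ scal t lam j ≤ Y ∧ bd (scal t lam j) p) :=
    ⟨_, rfl⟩
  have hlam0 : 0 ≤ lam := by linarith
  have hts : ∀ j, t ≤ scal t lam j := by
    intro j
    refine le_trans ?_ (scal_ge t lam j)
    exact le_mul_of_one_le_right ht0.le (one_le_pow₀ hlam1.le)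
  have hcard : (#Bad : ℝ) ≤ (X : ℝ) ^ k * Y / L ^ U := by
    have h4 : Bad ⊆ (Bx k X ×ˢ BadP) ∪ (range J).biUnion (fun j => Sf.filter (fun p => scal t lam j ≤ Y ∧ bd (scal t lam j) p)) := by
      intro p hp
      rw [hBad, mem_filter] at hp
      rw [mem_union, mem_product, mem_biUnion]
      rcases hp.2 with h5 | ⟨j, h5, h6⟩
      · left
        have := hp.1
        rw [hSf, mem_product] at this
        exact ⟨this.1, h5⟩
      · right
        exact ⟨j, mem_range.2 h5, mem_filter.2 ⟨hp.1, h6⟩⟩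
    have h5 := ((card_le_card h4).trans (card_union_le _ _)).trans (Nat.add_le_add_left card_biUnion_le _)
    have h6 : (#Bad : ℝ) ≤ (#(Bx k X ×ˢ BadP) : ℝ) +
        ∑ j ∈ range J, (#(Sf.filter (fun p => scal t lam j ≤ Y ∧ bd (scal t lam j) p)) : ℝ) := by exact_mod_cast h5
    have h7 : (#(Bx k X ×ˢ BadP) : ℝ) ≤ 3 ^ k * ((X : ℝ) ^ k * Y / L ^ (U + 3)) := by
      rw [card_product]
      push_cast
      rw [card_Bx]
      have a1 : (2 * (X : ℝ) + 1) ^ k ≤ 3 ^ k * (X : ℝ) ^ k := by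
        rw [← mul_pow]
        exact pow_le_pow_left₀ (by positivity) (by linarith) _
      have a2 : (#BadP : ℝ) ≤ Y / L ^ (U + 3) := by
        refine hBP2.trans ?_
        exact div_le_div_of_nonneg_left hY0.le (by positivity) lU
      calc (2 * (X : ℝ) + 1) ^ k * (#BadP : ℝ) ≤ 3 ^ k * (X : ℝ) ^ k * (Y / L ^ (U + 3)) :=
            mul_le_mul a1 a2 (by positivity) (by positivity)
        _ = _ := by ring
    have h8 : ∑ j ∈ range J, (#(Sf.filter (fun p => scal t lam j ≤ Y ∧ bd (scal t lam j) p)) : ℝ) ≤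
        J * ((1 + k * 3 ^ k) * ((X : ℝ) ^ k * Y / L ^ (U + 3))) := by
      have : ∀ j ∈ range J, (#(Sf.filter (fun p => scal t lam j ≤ Y ∧ bd (scal t lam j) p)) : ℝ) ≤
          (1 + k * 3 ^ k) * ((X : ℝ) ^ k * Y / L ^ (U + 3)) := by
        intro j _
        by_cases h9 : scal t lam j ≤ Y
        · have h10 := c3 (scal t lam j) (hts j) h9
          simp only [h9, true_and]
          refine le_trans (le_of_eq ?_) h10
          congr!
        · simp only [h9, false_and, filter_false, card_empty, Nat.cast_zero]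
          positivity
      refine (sum_le_sum this).trans (le_of_eq ?_)
      rw [sum_const, card_range, nsmul_eq_mul]
    have hu : (X : ℝ) ^ k * Y / L ^ (U + 3) = (X : ℝ) ^ k * Y / L ^ U * (1 / L ^ 3) := by
      rw [pow_add]; field_simp
    obtain ⟨q, hq⟩ : ∃ q, q = (X : ℝ) ^ k * Y / L ^ U := ⟨_, rfl⟩
    have hq0 : 0 < q := by rw [hq]; positivity
    rw [hu, ← hq] at h7 h8
    rw [← hq]
    have h9 : 3 ^ k * (q * (1 / L ^ 3)) ≤ q / 2 := by
      have a1 : 3 ^ k * (1 / L ^ 3) ≤ 1 / 2 := by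
        rw [mul_one_div, div_le_div_iff₀ (by positivity) (by norm_num)]
        have : L ≤ L ^ 3 := le_self_pow₀ hl1 (by norm_num)
        linarith
      calc 3 ^ k * (q * (1 / L ^ 3)) = 3 ^ k * (1 / L ^ 3) * q := by ring
        _ ≤ 1 / 2 * q := mul_le_mul_of_nonneg_right a1 hq0.le
        _ = _ := by ring
    have h10 : (J : ℝ) * ((1 + k * 3 ^ k) * (q * (1 / L ^ 3))) ≤ q / 2 := by
      have a1 : (J : ℝ) * (1 + k * 3 ^ k) * (1 / L ^ 3) ≤ 1 / 2 := by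
        rw [mul_one_div, div_le_div_iff₀ (by positivity) (by norm_num)]
        have a2 : (J : ℝ) * (1 + k * 3 ^ k) ≤ LJ * L * (1 + k * 3 ^ k) := mul_le_mul_of_nonneg_right hJL (by positivity)
        have a3 : 2 * (LJ * (1 + k * 3 ^ k)) * L ≤ L * L := mul_le_mul_of_nonneg_right g5 hL0.le
        have a4 : L * L ≤ L ^ 3 := by
          have a5 : L ^ 2 ≤ L ^ 3 := pow_le_pow_right₀ hl1 (by norm_num)
          rwa [sq] at a5
        linarith
      calc (J : ℝ) * ((1 + k * 3 ^ k) * (q * (1 / L ^ 3))) = (J : ℝ) * (1 + k * 3 ^ k) * (1 / L ^ 3) * q := by ring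
        _ ≤ 1 / 2 * q := mul_le_mul_of_nonneg_right a1 hq0.le
        _ = _ := by ring
    linarith
  refine ⟨Bad, by rw [hBad, ← hSf]; exact filter_subset _ _, hcard, fun a ha m hm hbad hadm => ?_⟩
  have hamS : (a, m) ∈ Sf := by rw [hSf]; exact mem_product.2 ⟨ha, hm⟩
  rw [hBad, mem_filter] at hbad
  push Not at hbad
  obtain ⟨hmP, hbj⟩ := hbad hamS
  have hS := hsp a hadm
  have hS0 : 0 < SP f a z := lt_of_lt_of_le (by positivity) hS
  refine ⟨hS0, fun H hH1 hH2 => ?_⟩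
  have hWt : 0 ≤ SP f a z * WA f a m H := by
    have : 0 ≤ WA f a m H := by
      unfold WA
      exact sum_nonneg fun _ _ => mul_nonneg (wt_nonneg _) (prod_nonneg fun _ _ => wt_nonneg _)
    positivity
  refine le_trans ?_ (mul_le_mul_of_nonneg_right hεe hWt)
  refine all_scales (fun G => (PA f a m G : ℝ)) (fun G => WA f a m G) (PA_mono f a m) (WA_mono f a m) (SP f a z)
    (L ^ k * lY) ε e' lam t hS0 (by positivity) hε hεl he'0 (by rw [he']) hlam (g1.trans ht1) (fun j => scal t lam j ≤ Y)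
    ?_ H ?_ ?_
  · intro j hj
    have hnb := hbj j (hJs j hj) hj
    obtain ⟨G, hG⟩ : ∃ G, G = scal t lam j := ⟨_, rfl⟩
    have hG1 := hts j
    rw [← hG] at hj hnb hG1 ⊢
    clear hG
    rw [hbd] at hnb
    push Not at hnb
    obtain ⟨n1, n2⟩ := hnb
    have hG0 : (0 : ℝ) < G := by linarith
    have hm' : m ∈ Ioc Y (2 * Y) := by rw [two_mul]; exact hm
    obtain ⟨v1, v2, v3⟩ := win_wt Y m G e he0 (by rw [← hlY]; exact y4) (by rw [← hlY]; exact y5) hm' hj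
    rw [← hlY] at v1 v2 v3
    have hV0 : 0 ≤ ∑ n ∈ Ioc m (m + G), wt n := sum_nonneg fun _ _ => wt_nonneg _
    have hGY : (G : ℝ) ≤ Y := by exact_mod_cast hj
    have hwt : ∀ n ∈ Ioc m (m + G), (∀ l, κ ≤ (((f l).eval (n : ℤ) + a l).natAbs : ℝ)) →
        |∏ l, wt ((f l).eval (n : ℤ) + a l).natAbs - 1 / L ^ k| ≤ e * (1 / L ^ k) := by
      intro n hn hκn
      have hv := hKv X Y Y (C + 1) m G n L a g3 hl1 hX1 ha hm (by
        intro i
        have h5 : ((Y : ℝ) + Y) ^ (f i).natDegree ≤ (3 * Y) ^ (f i).natDegree := pow_le_pow_left₀ (by positivity) (by linarith) _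
        calc ((Y : ℝ) + Y) ^ (f i).natDegree ≤ (3 * Y) ^ (f i).natDegree := h5
          _ = 3 ^ (f i).natDegree * (Y : ℝ) ^ (f i).natDegree := by rw [mul_pow]
          _ ≤ L * (X * L ^ C) := mul_le_mul (g4 i) (hW i) (by positivity) hL0.le
          _ = X * L ^ (C + 1) := by ring) (by
        intro i
        calc (G : ℝ) ^ (f i).natDegree ≤ (Y : ℝ) ^ (f i).natDegree := pow_le_pow_left₀ hG0.le hGY _
          _ ≤ X * L ^ C := hW i
          _ ≤ X * L ^ (C + 1 + 1) := by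
              apply mul_le_mul_of_nonneg_left _ hX0.le
              exact pow_le_pow_right₀ hl1 (by omega)) hn
      have h4 := prod_close (univ : Finset (Fin k)) (fun i => wt ((f i).eval (n : ℤ) + a i).natAbs) (1 / L) ε₃
        (by positivity) he30.le (fun i _ => hwc _ (by rw [← hκ]; exact hκn i) (hv i))
      rw [card_univ, Fintype.card_fin, one_div, inv_pow, ← one_div] at h4
      exact h4.trans (mul_le_mul_of_nonneg_right he31 (by positivity))
    have hc0 : 0 < 1 / L ^ k := by positivity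
    have hc1 : 1 / L ^ k ≤ 1 := by
      rw [div_le_one (by positivity)]; exact one_le_pow₀ hl1
    have hv0 := inv_pos.2 (Pool.Agent.TH892.OW.Vz_pos z)
    have s1 := sum_near f a m G κ (1 / L ^ k) e (((Vz z)⁻¹) ^ k) (fun n => om n * pr f (fun _ => ll z) a n)
      (fun n => mul_nonneg (om_nonneg n) (pr_ll_nonneg f z (by omega) a n))
      (fun n => by
        have a1 := pr_ll_le f z (by omega) a n
        have a2 := pr_ll_nonneg f z (by omega) a n
        exact (mul_le_of_le_one_left a2 (om_le n)).trans a1) hc0 hc1 he0.le hwt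
    have s2 := sum_near f a m G κ (1 / L ^ k) e 2 (fun n => wt n) (fun n => wt_nonneg n)
      (fun n => (wt_le' n).trans (by norm_num)) hc0 hc1 he0.le hwt
    have s3 := hfl b hb1 z hzy ((Ioc m (m + G)).filter Nat.Prime) (∑ n ∈ Ioc m (m + G), wt n) ((G : ℝ) / lY ^ (A + 1)) hV0
      (by positivity) (by
        intro q c hq hqz
        rw [filter_filter]
        refine hBP3 m hm hmP G (ht3.trans hG1) hj q c hq ?_
        have a1 : (q : ℝ) ≤ (z : ℝ) ^ (C1 * b) := by exact_mod_cast hqz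
        calc (q : ℝ) ≤ (z : ℝ) ^ (C1 * b) := a1
          _ ≤ (L ^ E) ^ (C1 * b) := pow_le_pow_left₀ (Nat.cast_nonneg _) hzL _
          _ = L ^ (E * (C1 * b)) := by rw [← pow_mul]
          _ ≤ L ^ A := by
              apply pow_le_pow_right₀ hl1
              rw [hA]
              omega
          _ ≤ lY ^ (A + 1) := lA) a hadm
    have hr : (z : ℝ) ^ (3 * (C1 * b)) * ((G : ℝ) / lY ^ (A + 1)) ≤ G / L ^ 4 := by
      have a1 : (z : ℝ) ^ (3 * (C1 * b)) ≤ L ^ (3 * (E * (C1 * b))) := by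
        calc (z : ℝ) ^ (3 * (C1 * b)) ≤ (L ^ E) ^ (3 * (C1 * b)) := pow_le_pow_left₀ (Nat.cast_nonneg _) hzL _
          _ = L ^ (3 * (E * (C1 * b))) := by rw [← pow_mul]; congr 1; ring
      have a2 : (G : ℝ) / lY ^ (A + 1) ≤ G / L ^ A := div_le_div_of_nonneg_left hG0.le (by positivity) lA
      calc (z : ℝ) ^ (3 * (C1 * b)) * ((G : ℝ) / lY ^ (A + 1)) ≤ L ^ (3 * (E * (C1 * b))) * (G / L ^ A) :=
            mul_le_mul a1 a2 (by positivity) (by positivity)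
        _ = G / L ^ 10 := by
            rw [hA, pow_add]; field_simp
        _ ≤ G / L ^ 4 := div_le_div_of_nonneg_left hG0.le (by positivity) (pow_le_pow_right₀ hl1 (by norm_num))
    have hvL : ((Vz z)⁻¹) ^ k ≤ L ^ k := by
      apply pow_le_pow_left₀ hv0.le
      have a1 : √L ≤ L := by
        rw [Real.sqrt_le_left hL0.le]
        exact le_self_pow₀ hl1 (by norm_num)
      have a2 : (Vz z)⁻¹ ≤ 36 * (Vz z)⁻¹ := le_mul_of_one_le_left hv0.le (by norm_num)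
      exact a2.trans (hVz.trans a1)
    have hX1n : 0 ≤ ∑ n ∈ Ioc m (m + G), om n * pr f (fun _ => ll z) a n :=
      sum_nonneg fun n _ => mul_nonneg (om_nonneg n) (pr_ll_nonneg f z (by omega) a n)
    refine one_scale k L lY G (PA f a m G) (∑ n ∈ Ioc m (m + G), om n * pr f (fun _ => vv z) a n)
      (∑ n ∈ Ioc m (m + G), om n * pr f (fun _ => ll z) a n) (∑ n ∈ Ioc m (m + G), wt n) (SP f a z) (WA f a m G)
      (nn f a m G κ) (((Vz z)⁻¹) ^ k) ((z : ℝ) ^ (3 * (C1 * b)) * ((G : ℝ) / lY ^ (A + 1))) e e' g0 y0' hG0 he0 he1 hee g2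
      ?_ ?_ ?_ hr ?_ n2 (Nat.cast_nonneg _) (by positivity) hvL ?_ v1 v2 hS hX1n
    · have a1 : (PA f a m G : ℝ) - ∑ n ∈ Ioc m (m + G), om n * pr f (fun _ => vv z) a n = D a m G := by
        rw [PA_eq, ← sum_sub_distrib, hD]
        exact sum_congr rfl fun n _ => by ring
      rw [a1]
      exact n1
    · refine le_trans (le_of_eq ?_) (s1.trans (le_of_eq ?_))
      · congr 2
        exact sum_congr rfl fun n _ => by rw [pr_vv]; ring
      · ring
    · have a1 : ∑ n ∈ (Ioc m (m + G)).filter Nat.Prime, pr f (fun _ => ll z) a n =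
          ∑ n ∈ Ioc m (m + G), om n * pr f (fun _ => ll z) a n := by
        rw [sum_filter]
        refine sum_congr rfl fun n _ => ?_
        unfold om
        split_ifs <;> ring
      rw [a1] at s3
      refine s3.trans ?_
      have a2 : 2 * (1 / 2 : ℝ) ^ b * SP f a z * ∑ n ∈ Ioc m (m + G), wt n ≤ e * SP f a z * ∑ n ∈ Ioc m (m + G), wt n := by
        gcongr
      linarith
    · refine le_trans (le_of_eq ?_) (s2.trans (le_of_eq ?_))
      · rfl
      · ring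
    · refine le_trans ?_ v3
      apply div_le_div_of_nonneg_left hG0.le (by positivity)
      linarith
  · unfold scal
    rw [pow_zero, mul_one]
    exact Nat.ceil_le.2 hH1
  · intro j hj
    omega

end Run7.h285.A
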