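import Pool.Agent.Run7.h285.A.GPB

/-!
# Project GENP: constants cut at an arbitrary `y`
-/

set_option autoImplicit false

namespace Run7.h285.A

open Finset Filter Topology Polynomial
open Pool.Agent.TH892.SW (ff wt wt_nonneg wt_le)
open Run7.h285.S (Bx)
open Pool.Agent.H442R2.EHI (evt_log_ge)

/-- **GPC** -/
def S_GPC {k : ℕ} (f : Fin k → ℤ[X]) : Prop := ∀ (ε : ℝ) (C : ℕ), 0 < ε → ∃ B X₀ : ℕ, ∀ X : ℕ, X₀ ≤ X → ∀ Y : ℕ,
  (∀ l, (X : ℝ) ^ (1 / 3 : ℝ) * Real.log X ^ B ≤ (Y : ℝ) ^ ((f l).natDegree - 1)) →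
  (∀ l, (Y : ℝ) ^ (f l).natDegree ≤ X * Real.log X ^ C) → ∀ y : ℕ, Real.log X ≤ y → (y : ℝ) ≤ Real.log X ^ C →
  ∃ Bad ⊆ Bx k X ×ˢ Ioc Y (2 * Y), (#Bad : ℝ) ≤ ε * ((X : ℝ) ^ k * Y) ∧
    ∀ a ∈ Bx k X, ∀ m ∈ Ioc Y (2 * Y), (a, m) ∉ Bad → AdmP f a → 0 < SP f a y ∧
      ∀ H : ℕ, (Y : ℝ) ^ (1 / 3 : ℝ) * Real.log X ^ B ≤ H → 2 * H ≤ Y →
        |(PA f a m H : ℝ) - SP f a y * WA f a m H| ≤ ε * (SP f a y * WA f a m H)

open Classical in
theorem gpc {k : ℕ} (f : Fin k → ℤ[X]) (h1 : S_GPB f) (h2 : S_HGP f) : S_GPC f := by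
  intro ε C hε
  obtain ⟨e, he⟩ : ∃ e, e = min ε 1 / 4 := ⟨_, rfl⟩
  have he0 : 0 < e := by rw [he]; exact div_pos (lt_min hε one_pos) (by norm_num)
  have he1 : e ≤ 1 / 4 := by rw [he]; linarith [min_le_right ε 1]
  have he2 : 4 * e ≤ ε := by rw [he]; linarith [min_le_left ε 1]
  clear he
  obtain ⟨E1, h1⟩ := h1 e 1 C he0
  obtain ⟨E, hE⟩ : ∃ E, E = E1 + 1 := ⟨_, rfl⟩
  obtain ⟨B, Xa, h1⟩ := h1 E (by omega)
  obtain ⟨δ0, hδ0, h2⟩ := h2 (ε / 2) (by positivity)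
  obtain ⟨Xb, h2⟩ := h2 e he0 C E (by omega)
  obtain ⟨Xc, hXc⟩ := eventually_atTop.1 (evt_log_ge (2 / ε + 1))
  refine ⟨B, Xa + Xb + Xc, fun X hX Y hM hW y hy1 hy2 => ?_⟩
  obtain ⟨Bad1, hs1, hc1, hg1⟩ := h1 X (by omega) Y hM hW
  obtain ⟨Bad2, hs2, hc2, hg2⟩ := h2 X (by omega) y hy1 hy2
  have hl := hXc X (by omega)
  have p1 : 0 < 2 / ε := by positivity
  have hl0 : 0 < Real.log X := by linarith
  refine ⟨Bad1 ∪ Bad2 ×ˢ Ioc Y (2 * Y), ?_, ?_, ?_⟩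
  · apply union_subset hs1
    exact product_subset_product hs2 (Subset.refl _)
  · have h3 : (#(Bad1 ∪ Bad2 ×ˢ Ioc Y (2 * Y)) : ℝ) ≤ (#Bad1 : ℝ) + (#Bad2 : ℝ) * Y := by
      have h4 := card_union_le Bad1 (Bad2 ×ˢ Ioc Y (2 * Y))
      rw [card_product, Nat.card_Ioc] at h4
      have h5 : 2 * Y - Y = Y := by omega
      rw [h5] at h4
      exact_mod_cast h4
    have h4 : (X : ℝ) ^ k * Y / Real.log X ^ 1 ≤ ε / 2 * ((X : ℝ) ^ k * Y) := by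
      rw [pow_one, div_le_iff₀ hl0]
      have h5 : 1 ≤ ε / 2 * Real.log X := by
        have : 2 / ε ≤ Real.log X := by linarith
        rw [div_le_iff₀ hε] at this
        linarith
      have h6 : 0 ≤ (X : ℝ) ^ k * Y := by positivity
      calc (X : ℝ) ^ k * Y = 1 * ((X : ℝ) ^ k * Y) := (one_mul _).symm
        _ ≤ ε / 2 * Real.log X * ((X : ℝ) ^ k * Y) := mul_le_mul_of_nonneg_right h5 h6
        _ = _ := by ring
    have h5 : (#Bad2 : ℝ) * Y ≤ ε / 2 * (X : ℝ) ^ k * Y := mul_le_mul_of_nonneg_right hc2 (Nat.cast_nonneg _)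
    calc (#(Bad1 ∪ Bad2 ×ˢ Ioc Y (2 * Y)) : ℝ) ≤ (#Bad1 : ℝ) + (#Bad2 : ℝ) * Y := h3
      _ ≤ ε / 2 * ((X : ℝ) ^ k * Y) + ε / 2 * (X : ℝ) ^ k * Y := add_le_add (hc1.trans h4) h5
      _ = _ := by ring
  · intro a ha m hm hbad hadm
    rw [mem_union, not_or] at hbad
    have hb2 : a ∉ Bad2 := fun h => hbad.2 (mem_product.2 ⟨h, hm⟩)
    obtain ⟨g1, g2⟩ := hg1 a ha m hm hbad.1 hadm
    obtain ⟨g3, g4⟩ := hg2 a ha hb2 hadm
    have g5 : 0 < SP f a y := lt_of_lt_of_le hδ0 g3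
    refine ⟨g5, fun H hH1 hH2 => ?_⟩
    have g6 := g2 H hH1 hH2
    have hW0 : 0 ≤ WA f a m H := by
      unfold WA
      exact sum_nonneg fun _ _ => mul_nonneg (wt_nonneg _) (prod_nonneg fun _ _ => wt_nonneg _)
    generalize (PA f a m H : ℝ) = P at g6 ⊢
    generalize WA f a m H = W at g6 hW0 ⊢
    generalize SP f a y = S at g4 g5 ⊢
    generalize SP f a ⌊Real.log X ^ E⌋₊ = S' at g4 g6
    have h7 : 0 ≤ S * W := mul_nonneg g5.le hW0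
    have a1 : |(S' - S) * W| ≤ e * (S * W) := by
      rw [abs_mul, abs_of_nonneg hW0]
      calc |S' - S| * W ≤ e * S * W := mul_le_mul_of_nonneg_right g4 hW0
        _ = _ := by ring
    have a2 : S' * W ≤ 2 * (S * W) := by
      have h8 := (abs_le.1 a1).2
      have h9 : e * (S * W) ≤ 1 * (S * W) := mul_le_mul_of_nonneg_right (by linarith) h7
      have e2 : (S' - S) * W = S' * W - S * W := by ring
      linarith
    have a3 : e * (S' * W) ≤ e * (2 * (S * W)) := mul_le_mul_of_nonneg_left a2 he0.le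
    have e1 : P - S * W = (P - S' * W) + (S' - S) * W := by ring
    rw [e1]
    refine (abs_add_le _ _).trans ?_
    have a4 : 0 ≤ e * (S * W) := mul_nonneg he0.le h7
    have a5 : e * (2 * (S * W)) = 2 * (e * (S * W)) := by ring
    calc |P - S' * W| + |(S' - S) * W| ≤ e * (S' * W) + e * (S * W) := add_le_add g6 a1
      _ ≤ 4 * e * (S * W) := by
        have e3 : 4 * e * (S * W) = 4 * (e * (S * W)) := by ring
        linarith
      _ ≤ ε * (S * W) := mul_le_mul_of_nonneg_right he2 h7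

end Run7.h285.A
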