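import Pool.Agent.Run7.h285.A.Stm
import Pool.Agent.Run7.h285.G.GEN

/-!
# Project GENP: long windows
-/

set_option autoImplicit false

namespace Run7.h285.A

open Finset Filter Topology Polynomial
open Pool.Agent.TH892.SW (ff wt)
open Run7.h285.S (Bx uu vv ll gg MG MG_long)
open Run7.h285.G (Gd cor pr MM S_GSM1)
open Pool.Agent.H442R2.EHI (evt_log_pow evt_log_ge)

/-- **GSP** -/
theorem gsp {k : ℕ} (f : Fin k → ℤ[X]) (h1 : S_GSM1 f) : S_GSP f := by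
  obtain ⟨K₀, hK, h1⟩ := h1
  intro U C
  obtain ⟨E1, h1⟩ := h1 (U + 4) C (U + 4)
  refine ⟨E1, fun E hE => ?_⟩
  obtain ⟨B, X1, h1⟩ := h1 E hE
  obtain ⟨X2, hX2⟩ := eventually_atTop.1 (evt_log_ge (10000 + (8 * K₀ + 4)))
  refine ⟨B + U + 4, max X1 X2, fun X hX m₀ M H hH hM hW ω hω => ?_⟩
  have hl' := hX2 X (le_trans (le_max_right _ _) hX)
  have hl : 10000 ≤ Real.log X := by linarith
  have hl2 : 8 * K₀ + 4 ≤ Real.log X := by linarith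
  have hl1' : 1 ≤ Real.log X := by linarith
  have hXp : 1 ≤ X := by
    rcases Nat.eq_zero_or_pos X with h | h
    · rw [h] at hl1'; norm_num at hl1'
    · exact h
  have hM' : ∀ l, (X : ℝ) ^ (1 / 3 : ℝ) * Real.log X ^ B ≤ (M : ℝ) ^ ((f l).natDegree - 1) := by
    intro l
    refine le_trans ?_ (hM l)
    apply mul_le_mul_of_nonneg_left _ (by positivity)
    exact pow_le_pow_right₀ hl1' (by omega)
  have h2' := fun m₁ r hr hr3 hW1 => h1 X (le_trans (le_max_left _ _) hX) m₁ M r hr hr3 hM' hW1 ω hω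
  clear h1 hX2 hX hM
  have hω2 : ∀ n, ω n ^ 2 ≤ 1 := by
    intro n
    rw [← sq_abs]
    exact pow_le_one₀ (abs_nonneg _) (hω n)
  have hMG : ∀ m₁ r : ℕ, MM k ω (fun a n => pr f (fun _ => uu) a n - pr f (fun _ => vv ⌊Real.log X ^ E⌋₊) a n) X m₁ M r =
      MG (Bx k X) (fun a n => ω n * (pr f (fun _ => uu) a n - pr f (fun _ => vv ⌊Real.log X ^ E⌋₊) a n)) m₁ M r := by
    intro m₁ r
    rfl
  have h2 : ∀ m₁ r : ℕ, 1 ≤ r → (r : ℝ) ≤ Real.log X ^ (U + 4) →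
      (∀ l, ((m₁ : ℝ) + M) ^ (f l).natDegree ≤ X * Real.log X ^ C) →
      MG (Bx k X) (fun a n => ω n * (pr f (fun _ => uu) a n - pr f (fun _ => vv ⌊Real.log X ^ E⌋₊) a n)) m₁ M r ≤
        (X : ℝ) ^ k * M * (K₀ * r + (r : ℝ) ^ 2 / Real.log X ^ (U + 4)) := by
    intro m₁ r hr hr3 hW1
    have h3 := h2' m₁ r hr hr3 hW1
    rw [hMG] at h3
    refine h3.trans ?_
    have e : ∑ m ∈ Ioc m₁ (m₁ + M), ∑ n ∈ Ioc m (m + r), ω n ^ 2 ≤ M * r := by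
      refine (sum_le_sum fun m _ => sum_le_sum fun n _ => hω2 n).trans (le_of_eq ?_)
      simp [Nat.card_Ioc]
    have e0 : 0 ≤ ∑ m ∈ Ioc m₁ (m₁ + M), ∑ n ∈ Ioc m (m + r), ω n ^ 2 :=
      sum_nonneg fun _ _ => sum_nonneg fun _ _ => sq_nonneg _
    have e1 : K₀ * (∑ m ∈ Ioc m₁ (m₁ + M), ∑ n ∈ Ioc m (m + r), ω n ^ 2) / Real.log X ^ k ≤ K₀ * (M * r) := by
      have hlk : 1 ≤ Real.log X ^ k := one_le_pow₀ hl1'
      have hK0 : 0 ≤ K₀ := by linarith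
      rw [div_le_iff₀ (by positivity)]
      calc K₀ * (∑ m ∈ Ioc m₁ (m₁ + M), ∑ n ∈ Ioc m (m + r), ω n ^ 2) ≤ K₀ * (M * r) := mul_le_mul_of_nonneg_left e hK0
        _ ≤ K₀ * (M * r) * Real.log X ^ k := le_mul_of_one_le_right (by positivity) hlk
    have e2 : (X : ℝ) ^ k * M * (K₀ * r + (r : ℝ) ^ 2 / Real.log X ^ (U + 4)) =
        (X : ℝ) ^ k * (K₀ * (M * r) + M * (r : ℝ) ^ 2 / Real.log X ^ (U + 4)) := by ring
    rw [e2]
    apply mul_le_mul_of_nonneg_left _ (by positivity)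
    linarith
  clear h2'
  rw [hMG]
  have hmono : ∀ m₁ : ℕ, (m₁ : ℝ) + M ≤ (m₀ : ℝ) + H + M → ∀ l', ((m₁ : ℝ) + M) ^ (f l').natDegree ≤ X * Real.log X ^ C := by
    intro m₁ h3 l'
    refine le_trans ?_ (hW l')
    exact pow_le_pow_left₀ (by positivity) h3 _
  clear hM' hW hMG
  generalize Real.log (X : ℝ) = l at *
  have hl0 : 0 < l := by linarith
  have hl1 : 1 ≤ l := by linarith
  have hXM : 0 ≤ (X : ℝ) ^ k * M := by positivity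
  obtain ⟨Q, hQ⟩ : ∃ Q, Q = l ^ (U + 4) := ⟨_, rfl⟩
  have hQ1 : l ≤ Q := by rw [hQ]; exact le_self_pow₀ hl1 (by omega)
  have hQ0 : 0 < Q := by linarith
  have hQH : Q ≤ H := by
    refine le_trans ?_ hH
    rw [hQ]
    exact pow_le_pow_right₀ hl1 (by omega)
  obtain ⟨H₁, hH₁⟩ : ∃ H₁, H₁ = ⌊Q⌋₊ := ⟨_, rfl⟩
  have a1 : (H₁ : ℝ) ≤ Q := by rw [hH₁]; exact Nat.floor_le hQ0.le
  have a2 : Q / 2 ≤ (H₁ : ℝ) := by
    have h4 := Nat.lt_floor_add_one Q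
    rw [← hH₁] at h4
    linarith
  have a3 : H₁ ≤ H := by
    have : (H₁ : ℝ) ≤ H := by linarith
    exact_mod_cast this
  have a4 : (0 : ℝ) < H₁ := by linarith
  have a5 : 1 ≤ H₁ := by exact_mod_cast a4
  have hK0 : 0 ≤ K₀ := by linarith
  rw [← hQ] at h2
  have h4 := MG_long (Bx k X) (fun a n => ω n * (pr f (fun _ => uu) a n - pr f (fun _ => vv ⌊l ^ E⌋₊) a n)) M H₁
    ((X : ℝ) ^ k * M * (K₀ * H₁ + (H₁ : ℝ) ^ 2 / Q)) ((m₀ : ℝ) + H + M) a5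
    (by positivity) (by
      intro m₁ r hr hr1 hW1
      have hr' : (r : ℝ) ≤ H₁ := by exact_mod_cast hr1
      refine (h2 m₁ r hr (by linarith) (hmono m₁ hW1)).trans ?_
      gcongr) m₀ H a3 le_rfl
  refine h4.trans ?_
  have e1 : 4 * ((H : ℝ) / H₁) ^ 2 * ((X : ℝ) ^ k * M * (K₀ * H₁ + (H₁ : ℝ) ^ 2 / Q)) =
      (X : ℝ) ^ k * M * ((H : ℝ) ^ 2 * (4 * K₀ / H₁ + 4 / Q)) := by
    field_simp
  have e2 : (X : ℝ) ^ k * (M * (H : ℝ) ^ 2 / l ^ U) = (X : ℝ) ^ k * M * ((H : ℝ) ^ 2 * (1 / l ^ U)) := by ring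
  rw [e1, e2]
  apply mul_le_mul_of_nonneg_left _ hXM
  apply mul_le_mul_of_nonneg_left _ (sq_nonneg _)
  have h5 : 4 * K₀ / H₁ ≤ 8 * K₀ / Q := by
    rw [div_le_div_iff₀ a4 hQ0]
    nlinarith
  have h6 : 8 * K₀ / Q + 4 / Q ≤ 1 / l ^ U := by
    rw [← add_div, div_le_div_iff₀ hQ0 (by positivity), one_mul, hQ]
    have e : l ^ (U + 4) = l ^ 4 * l ^ U := by ring
    rw [e]
    apply mul_le_mul_of_nonneg_right _ (by positivity)
    have : l ≤ l ^ 4 := le_self_pow₀ hl1 (by norm_num)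
    linarith
  linarith

end Run7.h285.A
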